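import Pool.Agent.Lib.MP_5ef378_an.Can13a_52

/-!
# The canonical `3 | 1` case
-/

set_option autoImplicit false

namespace Pool.Agent.Lib.MP_5ef378_an.SH31

open MeasureTheory Filter Topology Real

def s4c : Equiv.Perm (Fin 4) := ⟨![1, 2, 3, 0], ![3, 0, 1, 2], by decide, by decide⟩

theorem int4b (G : R4 → ℝ) :
    ∫ x, G x = ∫ w : ℝ × ℝ × ℝ × ℝ, G ![w.2.1, w.2.2.1, w.2.2.2, w.1] := by
  rw [intperm s4c, int4]
  have h := (measurePreserving_prodAssoc (volume : Measure ℝ) (volume : Measure ℝ)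
    (volume : Measure (ℝ × ℝ))).integral_comp (MeasurableEquiv.measurableEmbedding _)
    (fun w : ℝ × ℝ × ℝ × ℝ => G ![w.2.1, w.2.2.1, w.2.2.2, w.1])
  rw [show (volume : Measure (ℝ × ℝ × ℝ × ℝ)) = volume.prod (volume.prod volume) from rfl,
    ← h]
  refine integral_congr_ae (Eventually.of_forall fun z => ?_)
  simp only
  congr 1
  ext i
  fin_cases i <;> rfl

theorem cut3 {F : R4 → ℝ} (hT : Tst 3 F) :
    Continuous (fun q : ℝ × ℝ × ℝ => F ![q.1, q.2.1, q.2.2, 0]) ∧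
      HasCompactSupport (fun q : ℝ × ℝ × ℝ => F ![q.1, q.2.1, q.2.2, 0]) ∧
      ∀ x, F x = F ![x 0, x 1, x 2, 0] := by
  obtain ⟨c, hc⟩ := hT.bdd
  refine ⟨?_, ?_, ?_⟩
  · refine hT.cont.comp (continuous_pi fun i => ?_)
    fin_cases i <;> simp <;> fun_prop
  · refine HasCompactSupport.intro ((isCompact_Icc (a := -c) (b := c)).prod
      ((isCompact_Icc (a := -c) (b := c)).prod (isCompact_Icc (a := -c) (b := c))))
      fun z hz => ?_
    by_contra h0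
    have h1 := hc _ h0
    exact hz ⟨abs_le.1 (by simpa using h1 0 (by decide)),
      abs_le.1 (by simpa using h1 1 (by decide)), abs_le.1 (by simpa using h1 2 (by decide))⟩
  · intro x
    refine hT.ind _ _ fun j hj => ?_
    fin_cases j <;> simp at hj ⊢

theorem nA3 {F : R4 → ℝ} (hT : Tst 3 F) :
    n4 3 F = ∫ q : ℝ × ℝ × ℝ, F ![q.1, q.2.1, q.2.2, 0] ^ 4 := by
  obtain ⟨-, -, h⟩ := cut3 hT
  unfold n4
  rw [int4b]
  have e : ∀ w : ℝ × ℝ × ℝ × ℝ, u1 ((![w.2.1, w.2.2.1, w.2.2.2, w.1] : R4) 3)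
      * F ![w.2.1, w.2.2.1, w.2.2.2, w.1] ^ 4
      = u1 w.1 * (fun q : ℝ × ℝ × ℝ => F ![q.1, q.2.1, q.2.2, 0] ^ 4) w.2 := by
    intro w
    rw [h]
    rfl
  simp only [e]
  rw [show (volume : Measure (ℝ × ℝ × ℝ × ℝ)) = volume.prod volume from rfl,
    integral_prod_mul u1 (fun q : ℝ × ℝ × ℝ => F ![q.1, q.2.1, q.2.2, 0] ^ 4), u1_int, one_mul]

/-- reduction to a bilinear form -/
theorem red13 {e N : ℝ} (he : 0 < e) {A : ℝ → ℝ} {W : ℝ × ℝ × ℝ → ℝ}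
    (hA : Continuous A) (hAs : HasCompactSupport A) (hW : Continuous W)
    (hWs : HasCompactSupport W) :
    (∫ w : ℝ × ℝ × ℝ × ℝ, trK e N ((w.2.1 + w.2.2.1) + (w.2.2.2 + w.1)) * (A w.1 * W w.2))
      = ∫ u, ∫ v, trK e N (u + v) * A u * ∫ p : ℝ × ℝ, W (v - p.1 - p.2, p.1, p.2) := by
  have iA : Integrable A := hA.integrable_of_hasCompactSupport hAs
  have iW : Integrable W := hW.integrable_of_hasCompactSupport hWs
  have i1 : Integrable (fun w : ℝ × ℝ × ℝ × ℝ => A w.1 * W w.2) (volume.prod volume) :=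
    iA.mul_prod iW
  have i2 : Integrable (fun w : ℝ × ℝ × ℝ × ℝ =>
      trK e N ((w.2.1 + w.2.2.1) + (w.2.2.2 + w.1)) * (A w.1 * W w.2)) (volume.prod volume) := by
    refine i1.bdd_mul (c := 1 / e)
      (f := fun w : ℝ × ℝ × ℝ × ℝ => trK e N ((w.2.1 + w.2.2.1) + (w.2.2.2 + w.1))) ?_
      (Eventually.of_forall fun z => trK_bdd he _)
    exact ((trK_meas e N).comp (by fun_prop)).aestronglyMeasurable
  rw [show (volume : Measure (ℝ × ℝ × ℝ × ℝ)) = volume.prod volume from rfl, integral_prod _ i2]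
  refine integral_congr_ae (Eventually.of_forall fun u => ?_)
  simp only
  -- the inner integral
  have j1 : Integrable (fun q : ℝ × ℝ × ℝ =>
      trK e N ((q.1 + q.2.1) + (q.2.2 + u)) * (A u * W q)) volume := by
    refine (iW.const_mul (A u)).bdd_mul (c := 1 / e)
      (f := fun q : ℝ × ℝ × ℝ => trK e N ((q.1 + q.2.1) + (q.2.2 + u))) ?_
      (Eventually.of_forall fun z => trK_bdd he _)
    exact ((trK_meas e N).comp (by fun_prop)).aestronglyMeasurable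
  let S : (ℝ × ℝ × ℝ) ≃ₜ (ℝ × ℝ × ℝ) :=
    { toFun := fun q => (q.1 - q.2.1 - q.2.2, q.2.1, q.2.2)
      invFun := fun q => (q.1 + q.2.1 + q.2.2, q.2.1, q.2.2)
      left_inv := fun q => by
        ext
        · simp only
          ring
        · rfl
        · rfl
      right_inv := fun q => by
        ext
        · simp only
          ring
        · rfl
        · rfl
      continuous_toFun := by fun_prop
      continuous_invFun := by fun_prop }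
  have iWS : Integrable (fun q : ℝ × ℝ × ℝ => W (q.1 - q.2.1 - q.2.2, q.2.1, q.2.2)) volume := by
    have h1 : HasCompactSupport (fun q : ℝ × ℝ × ℝ => W (S q)) := hWs.comp_homeomorph S
    have h2 : Continuous (fun q : ℝ × ℝ × ℝ => W (S q)) := hW.comp S.continuous
    exact h2.integrable_of_hasCompactSupport h1
  have j2 : Integrable (fun q : ℝ × ℝ × ℝ =>
      trK e N (((q.1 - q.2.1 - q.2.2) + q.2.1) + (q.2.2 + u))
        * (A u * W (q.1 - q.2.1 - q.2.2, q.2.1, q.2.2))) volume := by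
    refine (iWS.const_mul (A u)).bdd_mul (c := 1 / e)
      (f := fun q : ℝ × ℝ × ℝ => trK e N (((q.1 - q.2.1 - q.2.2) + q.2.1) + (q.2.2 + u))) ?_
      (Eventually.of_forall fun z => trK_bdd he _)
    exact ((trK_meas e N).comp (by fun_prop)).aestronglyMeasurable
  have sh := _root_.SH31.shearF52 (Q := fun q : ℝ × ℝ × ℝ =>
    trK e N ((q.1 + q.2.1) + (q.2.2 + u)) * (A u * W q)) j1 j2
  rw [← sh]
  refine integral_congr_ae (Eventually.of_forall fun v => ?_)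
  simp only
  rw [← integral_const_mul]
  refine integral_congr_ae (Eventually.of_forall fun p => ?_)
  simp only
  have e1 : v - p.1 - p.2 + p.1 + (p.2 + u) = u + v := by ring
  rw [e1]
  ring

theorem can13 {e N : ℝ} (he : 0 < e) (hN : e < N) {F0 F1 F2 F3 : R4 → ℝ}
    (h0 : Tst 0 F0) (h1 : Tst 1 F1) (h2 : Tst 2 F2) (h3 : Tst 3 F3)
    (s0 : Splits {3} F0) (s1 : Splits {3} F1) (s2 : Splits {3} F2) :
    |∫ x : R4, trK e N ((x 0 + x 1) + (x 2 + x 3)) * (F0 x * F1 x * F2 x * F3 x)| ≤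
      (2 * √6 * π + 2 * π) * √(√(n4 0 F0 * n4 1 F1 * n4 2 F2 * n4 3 F3)) := by
  obtain ⟨G, r0, g0, f0⟩ := facA0 h0 s0
  obtain ⟨H, r1, g1, f1⟩ := facA1 h1 s1
  obtain ⟨K, r2, g2, f2⟩ := facA2 h2 s2
  obtain ⟨cQ, sQ, f3⟩ := cut3 h3
  rw [nA0 f0, nA1 f1, n4_2 f2, nA3 h3, int4b]
  set Q : ℝ × ℝ × ℝ → ℝ := fun q => F3 ![q.1, q.2.1, q.2.2, 0] with hQ
  let A : ℝ → ℝ := fun u => r0 u * r1 u * r2 u
  let W : ℝ × ℝ × ℝ → ℝ := fun q => Q (q.1, q.2.1, q.2.2) * G (q.2.1, q.2.2) * H (q.2.2, q.1)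
    * K (q.1, q.2.1)
  have cG := g0.pc
  have cH := g1.pc
  have cK := g2.pc
  have cA : Continuous A := (g0.rc.mul g1.rc).mul g2.rc
  have sA : HasCompactSupport A := (g0.rs.mul_right (f' := r1)).mul_right (f' := r2)
  have cW : Continuous W := by
    have hq : Continuous fun q : ℝ × ℝ × ℝ => Q (q.1, q.2.1, q.2.2) := cQ
    have hG : Continuous fun q : ℝ × ℝ × ℝ => G (q.2.1, q.2.2) := cG.comp (by fun_prop)
    have hH : Continuous fun q : ℝ × ℝ × ℝ => H (q.2.2, q.1) := cH.comp (by fun_prop)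
    have hK : Continuous fun q : ℝ × ℝ × ℝ => K (q.1, q.2.1) := cK.comp (by fun_prop)
    exact ((hq.mul hG).mul hH).mul hK
  have sW : HasCompactSupport W :=
    ((sQ.mul_right (f' := fun q : ℝ × ℝ × ℝ => G (q.2.1, q.2.2))).mul_right
      (f' := fun q : ℝ × ℝ × ℝ => H (q.2.2, q.1))).mul_right
      (f' := fun q : ℝ × ℝ × ℝ => K (q.1, q.2.1))
  have e1 : ∀ w : ℝ × ℝ × ℝ × ℝ,
      trK e N (((![w.2.1, w.2.2.1, w.2.2.2, w.1] : R4) 0 + (![w.2.1, w.2.2.1, w.2.2.2, w.1] : R4) 1)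
        + ((![w.2.1, w.2.2.1, w.2.2.2, w.1] : R4) 2 + (![w.2.1, w.2.2.1, w.2.2.2, w.1] : R4) 3)) *
      (F0 ![w.2.1, w.2.2.1, w.2.2.2, w.1] * F1 ![w.2.1, w.2.2.1, w.2.2.2, w.1] *
        F2 ![w.2.1, w.2.2.1, w.2.2.2, w.1] * F3 ![w.2.1, w.2.2.1, w.2.2.2, w.1]) =
      trK e N ((w.2.1 + w.2.2.1) + (w.2.2.2 + w.1)) * (A w.1 * W w.2) := by
    intro w
    rw [f0, f1, f2, f3]
    change trK e N ((w.2.1 + w.2.2.1) + (w.2.2.2 + w.1)) * ((G (w.2.2.1, w.2.2.2) * r0 w.1) *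
      (H (w.2.2.2, w.2.1) * r1 w.1) * (K (w.2.1, w.2.2.1) * r2 w.1) * Q w.2) =
      trK e N ((w.2.1 + w.2.2.1) + (w.2.2.2 + w.1)) * ((r0 w.1 * r1 w.1 * r2 w.1) *
      (Q w.2 * G (w.2.2.1, w.2.2.2) * H (w.2.2.2, w.2.1) * K (w.2.1, w.2.2.1)))
    ring
  simp only [e1]
  rw [red13 he cA sA cW sW]
  let B : ℝ → ℝ := fun v => ∫ p : ℝ × ℝ, W (v - p.1 - p.2, p.1, p.2)
  have hB := _root_.SH31.s13p (F := Q) (G := G) (H := H) (K := K) cQ sQ cG g0.ps cH g1.ps cK g2.ps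
    (B := B) (Or.inr fun v => rfl)
  obtain ⟨cB, sB, nB⟩ := hB
  have m := form_l4 he hN cA sA cB sB
  refine m.trans ?_
  have n4' : ∀ {α : Type} [MeasurableSpace α] (μ : Measure α) (f : α → ℝ),
      0 ≤ ∫ x, f x ^ 4 ∂μ := fun μ f => i4_nonneg μ f
  have a1 : (∫ u, |A u| ^ (4 / 3 : ℝ)) ^ (3 / 4 : ℝ)
      ≤ ((∫ x, r0 x ^ 4) * (∫ x, r1 x ^ 4) * (∫ x, r2 x ^ 4)) ^ (1 / 4 : ℝ) := by
    have h := _root_.SH31.h3_52 g0.rc g0.rs g1.rc g1.rs g2.rc g2.rs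
    have h0' : 0 ≤ ∫ x, |r0 x * r1 x * r2 x| ^ (4 / 3 : ℝ) :=
      integral_nonneg fun x => by positivity
    have hp : 0 ≤ (∫ x, r0 x ^ 4) * (∫ x, r1 x ^ 4) * (∫ x, r2 x ^ 4) :=
      mul_nonneg (mul_nonneg (n4' _ _) (n4' _ _)) (n4' _ _)
    calc (∫ u, |A u| ^ (4 / 3 : ℝ)) ^ (3 / 4 : ℝ)
        ≤ (((∫ x, r0 x ^ 4) * (∫ x, r1 x ^ 4) * (∫ x, r2 x ^ 4)) ^ (1 / 3 : ℝ)) ^ (3 / 4 : ℝ) :=
          Real.rpow_le_rpow h0' h (by norm_num)
      _ = _ := by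
          rw [← Real.rpow_mul hp]
          norm_num
  have a2 : (∫ v, |B v| ^ 4) ^ (1 / 4 : ℝ)
      ≤ ((∫ p, Q p ^ 4) * (∫ p, G p ^ 4) * (∫ p, H p ^ 4) * (∫ p, K p ^ 4)) ^ (1 / 4 : ℝ) := by
    have h : (∫ v, |B v| ^ 4) = ∫ v, B v ^ 4 := by
      refine integral_congr_ae (Eventually.of_forall fun v => ?_)
      simp only
      rw [show (4 : ℕ) = 2 * 2 from rfl, pow_mul, pow_mul, sq_abs]
    rw [h]
    exact Real.rpow_le_rpow (n4' _ _) nB (by norm_num)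
  have hP : 0 ≤ (∫ x, r0 x ^ 4) * (∫ x, r1 x ^ 4) * (∫ x, r2 x ^ 4) :=
    mul_nonneg (mul_nonneg (n4' _ _) (n4' _ _)) (n4' _ _)
  have hR : 0 ≤ (∫ p, Q p ^ 4) * (∫ p, G p ^ 4) * (∫ p, H p ^ 4) * (∫ p, K p ^ 4) :=
    mul_nonneg (mul_nonneg (mul_nonneg (n4' _ _) (n4' _ _)) (n4' _ _)) (n4' _ _)
  have q4 : ∀ {x : ℝ}, 0 ≤ x → x ^ (1 / 4 : ℝ) = √(√x) := by
    intro x hx
    rw [Real.sqrt_eq_rpow, Real.sqrt_eq_rpow, ← Real.rpow_mul hx]
    norm_num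
  have a3 := mul_le_mul a1 a2 (Real.rpow_nonneg (integral_nonneg fun x => by positivity) _)
    (Real.rpow_nonneg hP _)
  rw [← Real.mul_rpow hP hR] at a3
  rw [mul_assoc]
  refine mul_le_mul_of_nonneg_left (a3.trans (le_of_eq ?_)) (by positivity)
  rw [q4 (mul_nonneg hP hR)]
  congr 2
  ring

end Pool.Agent.Lib.MP_5ef378_an.SH31
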