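import Mathlib
import Pool.Agent.Lib.MP_bf61d2_nt.MV59.PlanchR

/-!
The truncated Hilbert kernel on `L^2` (bilinear form).
-/

set_option autoImplicit false

namespace Pool.Agent.Lib.MP_5ef378_an.SH31

open MeasureTheory Filter Topology FourierTransform Real

/-- the truncated kernel -/
noncomputable def trK (e N t : ℝ) : ℝ := if e < |t| ∧ |t| < N then 1 / t else 0

theorem cs {α : Type*} [MeasurableSpace α] {μ : Measure α} {f g : α → ℝ}
    (hf : MemLp f 2 μ) (hg : MemLp g 2 μ) :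
    ∫ x, |f x * g x| ∂μ ≤ √(∫ x, f x ^ 2 ∂μ) * √(∫ x, g x ^ 2 ∂μ) := by
  have h2 : (2 : ℝ).HolderConjugate 2 := by
    rw [Real.holderConjugate_iff]; norm_num
  have h := integral_mul_le_Lp_mul_Lq_of_nonneg (μ := μ) h2 (f := fun x => |f x|)
    (g := fun x => |g x|) (Eventually.of_forall fun x => abs_nonneg _)
    (Eventually.of_forall fun x => abs_nonneg _) (by simpa [Real.norm_eq_abs] using hf.norm) (by simpa [Real.norm_eq_abs] using hg.norm)
  have e1 : ∀ u : α → ℝ, (∫ a, |u a| ^ (2 : ℝ) ∂μ) ^ (1 / (2 : ℝ)) = √(∫ x, u x ^ 2 ∂μ) := by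
    intro u
    rw [Real.sqrt_eq_rpow]
    congr 1
    refine integral_congr_ae (Eventually.of_forall fun x => ?_)
    simp only [Real.rpow_ofNat, sq_abs]
  rw [e1 f, e1 g] at h
  refine le_trans (le_of_eq ?_) h
  refine integral_congr_ae (Eventually.of_forall fun x => ?_)
  simp only [abs_mul]

/-- Laplace form of the kernel -/
theorem lap {d : ℝ} (hd : 0 < d) (t : ℝ) :
    (1 : ℂ) / ((t : ℂ) + d * Complex.I) =
      -(2 * π * Complex.I) * ∫ w : ℝ in Set.Ioi 0,
        Complex.exp (2 * π * (Complex.I * t - d) * w) := by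
  have ha : (2 * π * (Complex.I * t - d) : ℂ).re < 0 := by
    have : (2 * π * (Complex.I * t - d) : ℂ).re = -(2 * π * d) := by
      simp
    rw [this]
    have := Real.pi_pos
    nlinarith [mul_pos this hd]
  have h := integral_exp_mul_complex_Ioi ha 0
  rw [h]
  have hne : ((t : ℂ) + d * Complex.I) ≠ 0 := by
    intro h0
    have := congrArg Complex.im h0
    simp at this
    exact hd.ne' this
  have e1 : (2 * π * (Complex.I * t - d) : ℂ) = 2 * π * Complex.I * ((t : ℂ) + d * Complex.I) := by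
    ring_nf
    rw [Complex.I_sq]
    ring
  have hpi : (2 * π * Complex.I : ℂ) ≠ 0 := by
    simp [Real.pi_ne_zero]
  rw [e1]
  simp only [Complex.ofReal_zero, mul_zero, Complex.exp_zero]
  field_simp

theorem ofReal_mul3 {A B : ℝ → ℝ} (u v : ℝ) : ((A u * B v : ℝ) : ℂ) = (A u : ℂ) * (B v : ℂ) := by
  push_cast; ring

theorem ft_neg (A : ℝ → ℝ) (w : ℝ) :
    𝓕 (fun u => (A u : ℂ)) (-w) = ∫ u : ℝ, Complex.exp (2 * π * Complex.I * u * w) * (A u : ℂ) := by
  rw [Real.fourier_real_eq_integral_exp_smul]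
  refine integral_congr_ae (Eventually.of_forall fun u => ?_)
  simp only [smul_eq_mul]
  congr 2
  push_cast
  ring

section
variable {A B : ℝ → ℝ}

theorem memLp2 (hA : Continuous A) (hA' : HasCompactSupport A) : MemLp A 2 volume :=
  hA.memLp_of_hasCompactSupport hA'

theorem int2 (hA : Continuous A) (hA' : HasCompactSupport A) : Integrable A volume :=
  hA.integrable_of_hasCompactSupport hA'

theorem ofR_mem (hA : Continuous A) (hA' : HasCompactSupport A) :
    MemLp (fun u => (A u : ℂ)) 2 volume :=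
  (Complex.continuous_ofReal.comp hA).memLp_of_hasCompactSupport
    (hA'.comp_left (g := fun x : ℝ => (x : ℂ)) (by simp))

theorem ofR_int (hA : Continuous A) (hA' : HasCompactSupport A) :
    Integrable (fun u => (A u : ℂ)) volume :=
  (Complex.continuous_ofReal.comp hA).integrable_of_hasCompactSupport
    (hA'.comp_left (g := fun x : ℝ => (x : ℂ)) (by simp))

/-- the Fubini identity for the complex kernel -/
theorem fub {d : ℝ} (hd : 0 < d) (hA : Continuous A) (hA' : HasCompactSupport A)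
    (hB : Continuous B) (hB' : HasCompactSupport B) :
    ∫ z : ℝ × ℝ, ((A z.1 * B z.2 : ℝ) : ℂ) * (1 / (((z.1 + z.2 : ℝ) : ℂ) + d * Complex.I)) =
      -(2 * π * Complex.I) * ∫ w : ℝ in Set.Ioi 0, Complex.exp (-(2 * π * d) * w) *
        (𝓕 (fun u => (A u : ℂ)) (-w) * 𝓕 (fun u => (B u : ℂ)) (-w)) := by
  have hAB : Integrable (fun z : ℝ × ℝ => (A z.1 : ℂ) * (B z.2 : ℂ)) (volume.prod volume) :=
    (ofR_int hA hA').mul_prod (ofR_int hB hB')
  have hexp : IntegrableOn (fun w : ℝ => Complex.exp (-(2 * π * d) * w)) (Set.Ioi 0) := by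
    have ha : (-(2 * π * d) : ℂ).re < 0 := by
      have : (-(2 * π * d) : ℂ).re = -(2 * π * d) := by
        simp
      rw [this]
      have := Real.pi_pos
      nlinarith [mul_pos this hd]
    exact integrableOn_exp_mul_complex_Ioi ha 0
  have hbig : Integrable (Function.uncurry fun (z : ℝ × ℝ) (w : ℝ) =>
      ((A z.1 : ℂ) * (B z.2 : ℂ)) * Complex.exp (2 * π * (Complex.I * (z.1 + z.2 : ℝ) - d) * w))
      ((volume.prod volume).prod (volume.restrict (Set.Ioi 0))) := by
    have h1 : Integrable (fun p : (ℝ × ℝ) × ℝ => ((A p.1.1 : ℂ) * (B p.1.2 : ℂ)) *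
        Complex.exp (-(2 * π * d) * p.2)) ((volume.prod volume).prod
          (volume.restrict (Set.Ioi 0))) := hAB.mul_prod hexp
    have h2 : AEStronglyMeasurable (fun p : (ℝ × ℝ) × ℝ =>
        Complex.exp (2 * π * Complex.I * (p.1.1 + p.1.2) * p.2)) ((volume.prod volume).prod
          (volume.restrict (Set.Ioi 0))) := by
      apply Continuous.aestronglyMeasurable
      fun_prop
    have h3 := h1.mul_bdd (c := 1) h2 (Eventually.of_forall fun p => by
      rw [Complex.norm_exp]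
      have : (2 * π * Complex.I * (p.1.1 + p.1.2) * p.2 : ℂ).re = 0 := by
        have e : (2 * π * Complex.I * (p.1.1 + p.1.2) * p.2 : ℂ) =
          ((2 * π * (p.1.1 + p.1.2) * p.2 : ℝ) : ℂ) * Complex.I := by
          push_cast; ring
        rw [e, Complex.re_ofReal_mul]
        simp
      rw [this]
      simp)
    refine h3.congr (Eventually.of_forall fun p => ?_)
    simp only [Function.uncurry]
    rw [mul_assoc, ← Complex.exp_add]
    congr 2
    push_cast
    ring
  have e1 : ∀ z : ℝ × ℝ, ((A z.1 * B z.2 : ℝ) : ℂ) * (1 / (((z.1 + z.2 : ℝ) : ℂ) + d * Complex.I))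
      = -(2 * π * Complex.I) * ∫ w : ℝ in Set.Ioi 0, ((A z.1 : ℂ) * (B z.2 : ℂ)) *
        Complex.exp (2 * π * (Complex.I * (z.1 + z.2 : ℝ) - d) * w) := by
    intro z
    rw [lap hd, integral_const_mul]
    push_cast
    ring
  simp only [e1]
  rw [integral_const_mul]
  congr 1
  have := integral_integral_swap hbig
  rw [show (volume : Measure (ℝ × ℝ)) = volume.prod volume from rfl, this]
  refine integral_congr_ae (Eventually.of_forall fun w => ?_)
  simp only
  rw [ft_neg, ft_neg, ← integral_prod_mul, ← integral_const_mul]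
  refine integral_congr_ae (Eventually.of_forall fun z => ?_)
  simp only
  have : Complex.exp (2 * π * (Complex.I * (z.1 + z.2 : ℝ) - d) * w) =
      Complex.exp (-(2 * π * d) * w) * (Complex.exp (2 * π * Complex.I * z.1 * w) *
        Complex.exp (2 * π * Complex.I * z.2 * w)) := by
    rw [← Complex.exp_add, ← Complex.exp_add]
    congr 1
    push_cast
    ring
  rw [this]
  ring

theorem planch (hA : Continuous A) (hA' : HasCompactSupport A) :
    ∫ w, ‖𝓕 (fun u => (A u : ℂ)) (-w)‖ ^ 2 = ∫ x, A x ^ 2 := by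
  have h1 := MP_bf61d2_nt.MV59.plancherel (ofR_int hA hA') (ofR_mem hA hA')
  have h2 := integral_neg_eq_self (fun w => ‖𝓕 (fun u => (A u : ℂ)) w‖ ^ 2) volume
  rw [h2, h1]
  refine integral_congr_ae (Eventually.of_forall fun u => ?_)
  simp

theorem planch_mem (hA : Continuous A) (hA' : HasCompactSupport A) :
    MemLp (fun w => ‖𝓕 (fun u => (A u : ℂ)) (-w)‖) 2 volume := by
  have h := (MP_bf61d2_nt.MV59.fourier_memLp (ofR_int hA hA')
    (ofR_mem hA hA')).comp_measurePreserving (Measure.measurePreserving_neg volume)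
  exact h.norm

theorem cker {d : ℝ} (hd : 0 < d) (hA : Continuous A) (hA' : HasCompactSupport A)
    (hB : Continuous B) (hB' : HasCompactSupport B) :
    ‖∫ z : ℝ × ℝ, ((A z.1 * B z.2 : ℝ) : ℂ) * (1 / (((z.1 + z.2 : ℝ) : ℂ) + d * Complex.I))‖ ≤
      2 * π * (√(∫ x, A x ^ 2) * √(∫ x, B x ^ 2)) := by
  rw [fub hd hA hA' hB hB', norm_mul]
  have e1 : ‖(-(2 * π * Complex.I) : ℂ)‖ = 2 * π := by
    simp [abs_of_pos Real.pi_pos]
  rw [e1]
  refine mul_le_mul_of_nonneg_left ?_ (by positivity)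
  refine (norm_integral_le_integral_norm _).trans ?_
  have hcs := cs (planch_mem hA hA') (planch_mem hB hB')
  rw [planch hA hA', planch hB hB'] at hcs
  refine le_trans ?_ hcs
  have hint : Integrable (fun w => |‖𝓕 (fun u => (A u : ℂ)) (-w)‖ *
      ‖𝓕 (fun u => (B u : ℂ)) (-w)‖|) volume :=
    ((planch_mem hA hA').integrable_mul (planch_mem hB hB')).abs
  refine le_trans ?_ (setIntegral_le_integral (s := Set.Ioi 0) hint
    (Eventually.of_forall fun w => abs_nonneg _))
  refine integral_mono_of_nonneg (Eventually.of_forall fun w => norm_nonneg _)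
    hint.integrableOn ((ae_restrict_iff' measurableSet_Ioi).2 (Eventually.of_forall
      fun w hw => ?_))
  simp only
  rw [norm_mul, norm_mul, Complex.norm_exp, abs_mul, abs_norm, abs_norm]
  have e2 : (-(2 * π * d) * (w : ℂ) : ℂ).re = -(2 * π * d * w) := by
    simp
  rw [e2]
  have hw' : (0 : ℝ) < w := hw
  have h1 : Real.exp (-(2 * π * d * w)) ≤ 1 := by
    rw [Real.exp_le_one_iff]
    have := Real.pi_pos
    have := mul_pos (mul_pos this hd) hw'
    nlinarith
  calc _ ≤ 1 * (‖𝓕 (fun u => (A u : ℂ)) (-w)‖ * ‖𝓕 (fun u => (B u : ℂ)) (-w)‖) :=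
        mul_le_mul_of_nonneg_right h1 (by positivity)
    _ = _ := one_mul _

/-- shear -/
theorem shear1 {w φ : ℝ → ℝ} (hw : Integrable w) (hφ : Integrable φ) :
    Integrable (fun z : ℝ × ℝ => w (z.1 + z.2) * φ z.1) volume ∧
      ∫ z : ℝ × ℝ, w (z.1 + z.2) * φ z.1 = (∫ x, w x) * ∫ x, φ x := by
  have hm : MeasurePreserving (fun z : ℝ × ℝ => (z.1, z.1 + z.2)) (volume.prod volume)
      (volume.prod volume) := measurePreserving_prod_add volume volume
  have hi : Integrable (fun z : ℝ × ℝ => φ z.1 * w z.2) (volume.prod volume) := hφ.mul_prod hw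
  have h1 := hm.integrable_comp_of_integrable hi
  refine ⟨h1.congr (Eventually.of_forall fun z => by simp [mul_comm]), ?_⟩
  have h2 := integral_map (μ := volume.prod volume) hm.measurable.aemeasurable
    (f := fun z : ℝ × ℝ => φ z.1 * w z.2) (by rw [hm.map_eq]; exact hi.aestronglyMeasurable)
  rw [hm.map_eq, integral_prod_mul] at h2
  rw [mul_comm, h2]
  refine integral_congr_ae (Eventually.of_forall fun z => by simp [mul_comm])

theorem shear2 {w φ : ℝ → ℝ} (hw : Integrable w) (hφ : Integrable φ) :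
    Integrable (fun z : ℝ × ℝ => w (z.1 + z.2) * φ z.2) volume ∧
      ∫ z : ℝ × ℝ, w (z.1 + z.2) * φ z.2 = (∫ x, w x) * ∫ x, φ x := by
  obtain ⟨h1, h2⟩ := shear1 hw hφ
  have hs : MeasurePreserving (Prod.swap : ℝ × ℝ → ℝ × ℝ) (volume.prod volume)
      (volume.prod volume) := Measure.measurePreserving_swap
  refine ⟨(hs.integrable_comp_of_integrable h1).congr
    (Eventually.of_forall fun z => by simp [add_comm]), ?_⟩
  rw [← h2]
  have h3 := integral_map (μ := volume.prod volume) hs.measurable.aemeasurable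
    (f := fun z : ℝ × ℝ => w (z.1 + z.2) * φ z.1)
    (by rw [hs.map_eq]; exact h1.aestronglyMeasurable)
  rw [hs.map_eq] at h3
  refine Eq.trans ?_ h3.symm
  refine integral_congr_ae (Eventually.of_forall fun z => by simp [add_comm])

theorem pois {d : ℝ} (hd : 0 < d) :
    Integrable (fun t : ℝ => d / (t ^ 2 + d ^ 2)) ∧ ∫ t : ℝ, d / (t ^ 2 + d ^ 2) = π := by
  have e : ∀ t : ℝ, d / (t ^ 2 + d ^ 2) = d⁻¹ * (1 + (d⁻¹ * t) ^ 2)⁻¹ := by
    intro t
    field_simp
    ring
  constructor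
  · simp only [e]
    exact (integrable_inv_one_add_sq.comp_mul_left' (inv_ne_zero hd.ne')).const_mul _
  · simp only [e]
    rw [integral_const_mul, Measure.integral_comp_mul_left (fun x => (1 + x ^ 2)⁻¹) d⁻¹,
      integral_univ_inv_one_add_sq]
    rw [inv_inv, abs_of_pos hd, smul_eq_mul]
    field_simp

theorem schur {w : ℝ → ℝ} (hwc : Continuous w) (hw0 : ∀ t, 0 ≤ w t) (hw : Integrable w)
    (hA : Continuous A) (hA' : HasCompactSupport A)
    (hB : Continuous B) (hB' : HasCompactSupport B) :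
    Integrable (fun z : ℝ × ℝ => w (z.1 + z.2) * |A z.1 * B z.2|) volume ∧
    ∫ z : ℝ × ℝ, w (z.1 + z.2) * |A z.1 * B z.2| ≤
      (∫ t, w t) * (√(∫ x, A x ^ 2) * √(∫ x, B x ^ 2)) := by
  have hA2 : Integrable (fun x => A x ^ 2) := (memLp2 hA hA').integrable_sq
  have hB2 : Integrable (fun x => B x ^ 2) := (memLp2 hB hB').integrable_sq
  have hA3 := shear1 hw hA2
  have hB3 := shear2 hw hB2
  have hf : MemLp (fun z : ℝ × ℝ => √(w (z.1 + z.2)) * A z.1) 2 volume := by
    rw [memLp_two_iff_integrable_sq (by apply Continuous.aestronglyMeasurable; fun_prop)]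
    refine hA3.1.congr (Eventually.of_forall fun z => ?_)
    simp only [mul_pow]
    rw [Real.sq_sqrt (hw0 _)]
  have hg : MemLp (fun z : ℝ × ℝ => √(w (z.1 + z.2)) * B z.2) 2 volume := by
    rw [memLp_two_iff_integrable_sq (by apply Continuous.aestronglyMeasurable; fun_prop)]
    refine hB3.1.congr (Eventually.of_forall fun z => ?_)
    simp only [mul_pow]
    rw [Real.sq_sqrt (hw0 _)]
  have key : ∀ z : ℝ × ℝ, |√(w (z.1 + z.2)) * A z.1 * (√(w (z.1 + z.2)) * B z.2)| =
      w (z.1 + z.2) * |A z.1 * B z.2| := by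
    intro z
    have : √(w (z.1 + z.2)) * A z.1 * (√(w (z.1 + z.2)) * B z.2) =
      (√(w (z.1 + z.2)) * √(w (z.1 + z.2))) * (A z.1 * B z.2) := by ring
    rw [this, Real.mul_self_sqrt (hw0 _), abs_mul, abs_of_nonneg (hw0 _)]
  refine ⟨((hf.integrable_mul hg).abs).congr (Eventually.of_forall fun z => ?_), ?_⟩
  · simpa using key z
  · have h := cs hf hg
    simp only [key] at h
    refine h.trans (le_of_eq ?_)
    have e1 : ∫ z : ℝ × ℝ, (√(w (z.1 + z.2)) * A z.1) ^ 2 = (∫ t, w t) * ∫ x, A x ^ 2 := by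
      rw [← hA3.2]
      refine integral_congr_ae (Eventually.of_forall fun z => ?_)
      simp only [mul_pow]
      rw [Real.sq_sqrt (hw0 _)]
    have e2 : ∫ z : ℝ × ℝ, (√(w (z.1 + z.2)) * B z.2) ^ 2 = (∫ t, w t) * ∫ x, B x ^ 2 := by
      rw [← hB3.2]
      refine integral_congr_ae (Eventually.of_forall fun z => ?_)
      simp only [mul_pow]
      rw [Real.sq_sqrt (hw0 _)]
    have h0 : 0 ≤ ∫ t, w t := integral_nonneg hw0
    rw [e1, e2, Real.sqrt_mul h0, Real.sqrt_mul h0]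
    have h6 := Real.mul_self_sqrt h0
    calc √(∫ t, w t) * √(∫ x, A x ^ 2) * (√(∫ t, w t) * √(∫ x, B x ^ 2)) =
        (√(∫ t, w t) * √(∫ t, w t)) * (√(∫ x, A x ^ 2) * √(∫ x, B x ^ 2)) := by ring
      _ = _ := by rw [h6]

theorem p1 {d t : ℝ} (hd : 0 < d) (h : d ≤ |t|) : |1 / t - t / (t ^ 2 + d ^ 2)| ≤ d / (t ^ 2 + d ^ 2) := by
  have ht : 0 < |t| := lt_of_lt_of_le hd h
  have ht0 : t ≠ 0 := abs_pos.1 ht
  have hp : 0 < t ^ 2 + d ^ 2 := by positivity
  have e : 1 / t - t / (t ^ 2 + d ^ 2) = d ^ 2 / (t * (t ^ 2 + d ^ 2)) := by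
    field_simp
    ring
  rw [e, abs_div, abs_mul, abs_of_pos hp, abs_of_pos (by positivity : 0 < d ^ 2),
    div_le_div_iff₀ (by positivity) hp]
  nlinarith [mul_le_mul_of_nonneg_left h (by positivity : 0 ≤ d * (t ^ 2 + d ^ 2))]

theorem p2 {d t : ℝ} (hd : 0 < d) (h : |t| ≤ d) : |t / (t ^ 2 + d ^ 2)| ≤ d / (t ^ 2 + d ^ 2) := by
  have hp : 0 < t ^ 2 + d ^ 2 := by positivity
  rw [abs_div, abs_of_pos hp]
  exact div_le_div_of_nonneg_right h hp.le

theorem ker_le {e N : ℝ} (he : 0 < e) (hN : e < N) (t : ℝ) :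
    |trK e N t - t / (t ^ 2 + e ^ 2) + t / (t ^ 2 + N ^ 2)| ≤
      e / (t ^ 2 + e ^ 2) + N / (t ^ 2 + N ^ 2) := by
  have hN0 : 0 < N := he.trans hN
  unfold trK
  rcases le_or_gt |t| e with h1 | h1
  · rw [if_neg (by intro h; linarith [h.1])]
    have a1 := p2 he h1
    have a2 := p2 hN0 (h1.trans hN.le)
    calc |0 - t / (t ^ 2 + e ^ 2) + t / (t ^ 2 + N ^ 2)| ≤
          |0 - t / (t ^ 2 + e ^ 2)| + |t / (t ^ 2 + N ^ 2)| := abs_add_le _ _
      _ ≤ _ := by rw [zero_sub, abs_neg]; linarith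
  · rcases lt_or_ge |t| N with h2 | h2
    · rw [if_pos ⟨h1, h2⟩]
      have a1 := p1 he h1.le
      have a2 := p2 hN0 h2.le
      exact (abs_add_le _ _).trans (by linarith)
    · rw [if_neg (by intro h; linarith [h.2])]
      have a1 := p1 he h1.le
      have a2 := p1 hN0 h2
      have e3 : 0 - t / (t ^ 2 + e ^ 2) + t / (t ^ 2 + N ^ 2) =
        (1 / t - t / (t ^ 2 + e ^ 2)) - (1 / t - t / (t ^ 2 + N ^ 2)) := by ring
      rw [e3]
      exact (abs_sub _ _).trans (by linarith)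

theorem re_ker {d : ℝ} (t : ℝ) :
    ((1 : ℂ) / ((t : ℂ) + d * Complex.I)).re = t / (t ^ 2 + d ^ 2) := by
  rw [one_div, Complex.inv_re]
  simp [Complex.normSq_apply]
  ring

theorem trK_meas (e N : ℝ) : Measurable (trK e N) := by
  unfold trK
  refine Measurable.ite ?_ (by fun_prop) measurable_const
  exact (measurableSet_lt measurable_const continuous_abs.measurable).inter
    (measurableSet_lt continuous_abs.measurable measurable_const)

theorem trK_bdd {e N : ℝ} (he : 0 < e) (t : ℝ) : |trK e N t| ≤ 1 / e := by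
  unfold trK
  split_ifs with h
  · rw [abs_div, abs_one]
    exact one_div_le_one_div_of_le he h.1.le
  · simp [he.le]

theorem q_bdd {d : ℝ} (hd : 0 < d) (t : ℝ) : |t / (t ^ 2 + d ^ 2)| ≤ 1 / d := by
  have hp : 0 < t ^ 2 + d ^ 2 := by positivity
  rw [abs_div, abs_of_pos hp, div_le_div_iff₀ hp hd, one_mul]
  nlinarith [sq_nonneg (|t| - d), sq_abs t, abs_nonneg t]

theorem AB_int (hA : Continuous A) (hA' : HasCompactSupport A)
    (hB : Continuous B) (hB' : HasCompactSupport B) :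
    Integrable (fun z : ℝ × ℝ => A z.1 * B z.2) volume :=
  (int2 hA hA').mul_prod (int2 hB hB')

theorem kAB_int {κ : ℝ → ℝ} (hκ : Measurable κ) {c : ℝ} (hc : ∀ t, |κ t| ≤ c)
    (hA : Continuous A) (hA' : HasCompactSupport A)
    (hB : Continuous B) (hB' : HasCompactSupport B) :
    Integrable (fun z : ℝ × ℝ => κ (z.1 + z.2) * (A z.1 * B z.2)) volume := by
  have h := (AB_int hA hA' hB hB').bdd_mul (c := c) (f := fun z : ℝ × ℝ => κ (z.1 + z.2))
    (by exact (hκ.comp (measurable_fst.add measurable_snd)).aestronglyMeasurable)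
    (Eventually.of_forall fun z => hc _)
  exact h

theorem q_form {d : ℝ} (hd : 0 < d) (hA : Continuous A) (hA' : HasCompactSupport A)
    (hB : Continuous B) (hB' : HasCompactSupport B) :
    |∫ z : ℝ × ℝ, (z.1 + z.2) / ((z.1 + z.2) ^ 2 + d ^ 2) * (A z.1 * B z.2)| ≤
      2 * π * (√(∫ x, A x ^ 2) * √(∫ x, B x ^ 2)) := by
  have hI : Integrable (fun z : ℝ × ℝ => ((A z.1 * B z.2 : ℝ) : ℂ) *
      (1 / (((z.1 + z.2 : ℝ) : ℂ) + d * Complex.I))) volume := by
    have h0 : Integrable (fun z : ℝ × ℝ => ((A z.1 * B z.2 : ℝ) : ℂ)) volume :=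
      (AB_int hA hA' hB hB').ofReal
    refine h0.mul_bdd (c := 1 / d) ?_ (Eventually.of_forall fun z => ?_)
    · apply Continuous.aestronglyMeasurable
      refine Continuous.div continuous_const (by fun_prop) fun z h0 => ?_
      have := congrArg Complex.im h0
      simp at this
      exact hd.ne' this
    · rw [norm_div, norm_one]
      refine one_div_le_one_div_of_le hd ?_
      have h1 := Complex.abs_im_le_norm (((z.1 + z.2 : ℝ) : ℂ) + d * Complex.I)
      simpa [abs_of_pos hd] using h1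
  have h1 : ∫ z : ℝ × ℝ, (z.1 + z.2) / ((z.1 + z.2) ^ 2 + d ^ 2) * (A z.1 * B z.2) =
      (∫ z : ℝ × ℝ, ((A z.1 * B z.2 : ℝ) : ℂ) *
        (1 / (((z.1 + z.2 : ℝ) : ℂ) + d * Complex.I))).re := by
    have h2 := Complex.reCLM.integral_comp_comm hI
    simp only [Complex.reCLM_apply] at h2
    rw [← h2]
    refine integral_congr_ae (Eventually.of_forall fun z => ?_)
    simp only
    rw [Complex.re_ofReal_mul, re_ker]
    ring
  rw [h1]
  exact (Complex.abs_re_le_norm _).trans (cker hd hA hA' hB hB')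

/-- the truncated Hilbert form is bounded on `L^2`, uniformly in the truncations -/
theorem form_l2 {e N : ℝ} (he : 0 < e) (hN : e < N) (hA : Continuous A)
    (hA' : HasCompactSupport A) (hB : Continuous B) (hB' : HasCompactSupport B) :
    |∫ z : ℝ × ℝ, trK e N (z.1 + z.2) * (A z.1 * B z.2)| ≤
      6 * π * (√(∫ x, A x ^ 2) * √(∫ x, B x ^ 2)) := by
  have hN0 : 0 < N := he.trans hN
  have i1 := kAB_int (trK_meas e N) (trK_bdd (N := N) he) hA hA' hB hB'
  have i2 := kAB_int (κ := fun t => t / (t ^ 2 + e ^ 2)) (by fun_prop) (q_bdd he) hA hA' hB hB'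
  have i3 := kAB_int (κ := fun t => t / (t ^ 2 + N ^ 2)) (by fun_prop) (q_bdd hN0) hA hA' hB hB'
  obtain ⟨pe1, pe2⟩ := pois he
  obtain ⟨pn1, pn2⟩ := pois hN0
  have cont : ∀ {d : ℝ}, 0 < d → Continuous (fun t : ℝ => d / (t ^ 2 + d ^ 2)) := by
    intro d hd
    refine Continuous.div continuous_const (by fun_prop) fun t => ?_
    positivity
  obtain ⟨se1, se2⟩ := schur (cont he) (fun t => by positivity) pe1 hA hA' hB hB'
  obtain ⟨sn1, sn2⟩ := schur (cont hN0) (fun t => by positivity) pn1 hA hA' hB hB'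
  rw [pe2] at se2
  rw [pn2] at sn2
  have b1 := q_form he hA hA' hB hB'
  have b2 := q_form hN0 hA hA' hB hB'
  have hE : |∫ z : ℝ × ℝ, (trK e N (z.1 + z.2) * (A z.1 * B z.2) -
      (z.1 + z.2) / ((z.1 + z.2) ^ 2 + e ^ 2) * (A z.1 * B z.2) +
      (z.1 + z.2) / ((z.1 + z.2) ^ 2 + N ^ 2) * (A z.1 * B z.2))| ≤
      ∫ z : ℝ × ℝ, (e / ((z.1 + z.2) ^ 2 + e ^ 2) * |A z.1 * B z.2| +
        N / ((z.1 + z.2) ^ 2 + N ^ 2) * |A z.1 * B z.2|) := by
    rw [← Real.norm_eq_abs]
    refine norm_integral_le_of_norm_le (se1.add sn1) (Eventually.of_forall fun z => ?_)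
    have h := ker_le he hN (z.1 + z.2)
    have e1 : trK e N (z.1 + z.2) * (A z.1 * B z.2) -
      (z.1 + z.2) / ((z.1 + z.2) ^ 2 + e ^ 2) * (A z.1 * B z.2) +
      (z.1 + z.2) / ((z.1 + z.2) ^ 2 + N ^ 2) * (A z.1 * B z.2) =
      (trK e N (z.1 + z.2) - (z.1 + z.2) / ((z.1 + z.2) ^ 2 + e ^ 2) +
      (z.1 + z.2) / ((z.1 + z.2) ^ 2 + N ^ 2)) * (A z.1 * B z.2) := by ring
    rw [e1, Real.norm_eq_abs, abs_mul, ← add_mul]
    exact mul_le_mul_of_nonneg_right h (abs_nonneg _)
  rw [integral_add se1 sn1] at hE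
  have e5 : ∫ z : ℝ × ℝ, (trK e N (z.1 + z.2) * (A z.1 * B z.2) -
      (z.1 + z.2) / ((z.1 + z.2) ^ 2 + e ^ 2) * (A z.1 * B z.2) +
      (z.1 + z.2) / ((z.1 + z.2) ^ 2 + N ^ 2) * (A z.1 * B z.2)) =
      (∫ z : ℝ × ℝ, trK e N (z.1 + z.2) * (A z.1 * B z.2)) -
      (∫ z : ℝ × ℝ, (z.1 + z.2) / ((z.1 + z.2) ^ 2 + e ^ 2) * (A z.1 * B z.2)) +
      ∫ z : ℝ × ℝ, (z.1 + z.2) / ((z.1 + z.2) ^ 2 + N ^ 2) * (A z.1 * B z.2) := by
    have h6 := integral_add (i1.sub i2) i3
    simp only [Pi.sub_apply] at h6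
    have h7 := integral_sub i1 i2
    rw [← h7]
    exact h6
  rw [e5] at hE
  set I1 := ∫ z : ℝ × ℝ, trK e N (z.1 + z.2) * (A z.1 * B z.2)
  set I2 := ∫ z : ℝ × ℝ, (z.1 + z.2) / ((z.1 + z.2) ^ 2 + e ^ 2) * (A z.1 * B z.2)
  set I3 := ∫ z : ℝ × ℝ, (z.1 + z.2) / ((z.1 + z.2) ^ 2 + N ^ 2) * (A z.1 * B z.2)
  have h3 : I1 = (I1 - I2 + I3) + I2 - I3 := by ring
  rw [h3]
  have h4 := abs_sub ((I1 - I2 + I3) + I2) I3
  have h5 := abs_add_le (I1 - I2 + I3) I2
  linarith

end

end Pool.Agent.Lib.MP_5ef378_an.SH31
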