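import Mathlib
import Pool.Agent.Lib.MP_5ef378_an.L2_31

/-!
The reduction of the 2|2 split form to the truncated Hilbert form.
-/

set_option autoImplicit false

namespace Pool.Agent.Lib.MP_5ef378_an.SH31

open MeasureTheory Filter Topology Real

section
variable {P R : ℝ × ℝ → ℝ}

theorem box (hP' : HasCompactSupport P) : ∃ c : ℝ, 0 ≤ c ∧ ∀ z : ℝ × ℝ, P z ≠ 0 →
    |z.1| ≤ c ∧ |z.2| ≤ c := by
  obtain ⟨c, hc⟩ := hP'.isCompact.isBounded.subset_closedBall (0 : ℝ × ℝ)
  refine ⟨max c 0, le_max_right _ _, fun z hz => ?_⟩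
  have h1 : z ∈ Metric.closedBall (0 : ℝ × ℝ) c := hc (subset_tsupport _ hz)
  rw [mem_closedBall_zero_iff, Prod.norm_def] at h1
  have h2 := (le_max_left ‖z.1‖ ‖z.2‖).trans h1
  have h3 := (le_max_right ‖z.1‖ ‖z.2‖).trans h1
  exact ⟨h2.trans (le_max_left _ _), h3.trans (le_max_left _ _)⟩

theorem marg_cont (hP : Continuous P) (hP' : HasCompactSupport P) :
    Continuous (fun u => ∫ x, P (x, u - x)) := by
  obtain ⟨c, hc0, hc⟩ := box hP'
  have e : (fun u => ∫ x, P (x, u - x)) = fun u => ∫ x in Set.Icc (-c) c, P (x, u - x) := by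
    ext u
    symm
    refine setIntegral_eq_integral_of_forall_compl_eq_zero fun x hx => ?_
    by_contra h
    exact hx (abs_le.1 (hc _ h).1)
  rw [e]
  exact continuous_parametric_integral_of_continuous
    (f := fun (u : ℝ) (x : ℝ) => P (x, u - x)) (by
      simp only [Function.uncurry_def]
      fun_prop) isCompact_Icc

theorem marg_supp (hP' : HasCompactSupport P) :
    HasCompactSupport (fun u => ∫ x, P (x, u - x)) := by
  obtain ⟨c, hc0, hc⟩ := box hP'
  refine HasCompactSupport.intro (isCompact_Icc (a := -(2 * c)) (b := 2 * c)) fun u hu => ?_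
  rw [show (fun x => P (x, u - x)) = fun _ => (0 : ℝ) from ?_]
  · simp
  · ext x
    by_contra h
    obtain ⟨h1, h2⟩ := hc _ h
    simp only at h1 h2
    refine hu (abs_le.1 ?_)
    calc |u| = |x + (u - x)| := by ring_nf
      _ ≤ |x| + |u - x| := abs_add_le _ _
      _ ≤ _ := by linarith

theorem marg {κ : ℝ → ℝ} (h : Integrable (fun z : ℝ × ℝ => κ (z.1 + z.2) * P z) volume) :
    ∫ z : ℝ × ℝ, κ (z.1 + z.2) * P z = ∫ u, κ u * ∫ x, P (x, u - x) := by
  have hm : MeasurePreserving (MeasurableEquiv.shearAddRight ℝ : ℝ × ℝ ≃ᵐ ℝ × ℝ)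
      (volume.prod volume) (volume.prod volume) := measurePreserving_prod_add volume volume
  have h1 := hm.integral_comp (MeasurableEquiv.measurableEmbedding _)
    (fun z : ℝ × ℝ => κ z.2 * P (z.1, z.2 - z.1))
  have h2 : ∀ z : ℝ × ℝ, κ ((MeasurableEquiv.shearAddRight ℝ : ℝ × ℝ ≃ᵐ ℝ × ℝ) z).2 *
      P (((MeasurableEquiv.shearAddRight ℝ : ℝ × ℝ ≃ᵐ ℝ × ℝ) z).1,
        ((MeasurableEquiv.shearAddRight ℝ : ℝ × ℝ ≃ᵐ ℝ × ℝ) z).2 -
        ((MeasurableEquiv.shearAddRight ℝ : ℝ × ℝ ≃ᵐ ℝ × ℝ) z).1) = κ (z.1 + z.2) * P z := by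
    intro z
    have e1 : ((MeasurableEquiv.shearAddRight ℝ : ℝ × ℝ ≃ᵐ ℝ × ℝ) z).1 = z.1 := rfl
    have e2 : ((MeasurableEquiv.shearAddRight ℝ : ℝ × ℝ ≃ᵐ ℝ × ℝ) z).2 = z.1 + z.2 := rfl
    rw [e1, e2]
    simp
  simp only [h2] at h1
  have h3 : Integrable (fun z : ℝ × ℝ => κ z.2 * P (z.1, z.2 - z.1)) (volume.prod volume) := by
    rw [← hm.integrable_comp_emb (MeasurableEquiv.measurableEmbedding _)]
    refine h.congr (Eventually.of_forall fun z => ?_)
    exact (h2 z).symm
  rw [show (volume : Measure (ℝ × ℝ)) = volume.prod volume from rfl, h1, integral_prod_symm _ h3]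
  refine integral_congr_ae (Eventually.of_forall fun u => ?_)
  simp only
  rw [integral_const_mul]

theorem intP {Q : ℝ × ℝ → ℝ} (hP : Continuous Q) (hP' : HasCompactSupport Q) :
    Integrable Q volume := hP.integrable_of_hasCompactSupport hP'

/-- the form with kernel `κ (sum of the four variables)` -/
theorem form_red {e N : ℝ} (he : 0 < e) (hP : Continuous P) (hP' : HasCompactSupport P)
    (hR : Continuous R) (hR' : HasCompactSupport R) :
    ∫ z : (ℝ × ℝ) × (ℝ × ℝ), trK e N ((z.1.1 + z.1.2) + (z.2.1 + z.2.2)) * (P z.1 * R z.2) =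
      ∫ w : ℝ × ℝ, trK e N (w.1 + w.2) * ((∫ x, P (x, w.1 - x)) * ∫ x, R (x, w.2 - x)) := by
  have hPR : Integrable (fun z : (ℝ × ℝ) × (ℝ × ℝ) => P z.1 * R z.2) (volume.prod volume) :=
    (intP hP hP').mul_prod (intP hR hR')
  have hF : Integrable (fun z : (ℝ × ℝ) × (ℝ × ℝ) =>
      trK e N ((z.1.1 + z.1.2) + (z.2.1 + z.2.2)) * (P z.1 * R z.2)) (volume.prod volume) := by
    refine hPR.bdd_mul (c := 1 / e)
      (f := fun z : (ℝ × ℝ) × (ℝ × ℝ) => trK e N ((z.1.1 + z.1.2) + (z.2.1 + z.2.2))) ?_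
      (Eventually.of_forall fun z => trK_bdd he _)
    exact ((trK_meas e N).comp (by fun_prop)).aestronglyMeasurable
  rw [show (volume : Measure ((ℝ × ℝ) × (ℝ × ℝ))) = volume.prod volume from rfl,
    integral_prod_symm _ hF]
  have e1 : ∀ b : ℝ × ℝ, ∫ a : ℝ × ℝ, trK e N ((a.1 + a.2) + (b.1 + b.2)) * (P a * R b) =
      (∫ u, trK e N (u + (b.1 + b.2)) * ∫ x, P (x, u - x)) * R b := by
    intro b
    have hi : Integrable (fun a : ℝ × ℝ => trK e N ((a.1 + a.2) + (b.1 + b.2)) * P a) volume := by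
      refine (intP hP hP').bdd_mul (c := 1 / e)
        (f := fun a : ℝ × ℝ => trK e N ((a.1 + a.2) + (b.1 + b.2))) ?_
        (Eventually.of_forall fun z => trK_bdd he _)
      exact ((trK_meas e N).comp (by fun_prop)).aestronglyMeasurable
    rw [← marg (κ := fun u => trK e N (u + (b.1 + b.2))) hi, ← integral_mul_const]
    refine integral_congr_ae (Eventually.of_forall fun a => ?_)
    simp only
    ring
  have hF2 := hF.integral_prod_right
  simp only [e1] at hF2 ⊢
  rw [marg (κ := fun v => ∫ u, trK e N (u + v) * ∫ x, P (x, u - x)) hF2]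
  have hA := marg_cont hP hP'
  have hA' := marg_supp hP'
  have hB := marg_cont hR hR'
  have hB' := marg_supp hR'
  have hk := kAB_int (trK_meas e N) (trK_bdd (N := N) he) hA hA' hB hB'
  rw [show (volume : Measure (ℝ × ℝ)) = volume.prod volume from rfl] at hk
  rw [show (volume : Measure (ℝ × ℝ)) = volume.prod volume from rfl, integral_prod_symm _ hk]
  refine integral_congr_ae (Eventually.of_forall fun v => ?_)
  simp only
  rw [← integral_mul_const]
  refine integral_congr_ae (Eventually.of_forall fun u => ?_)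
  simp only
  ring

theorem mem2' {Q : ℝ × ℝ → ℝ} (hP : Continuous Q) (hP' : HasCompactSupport Q) :
    MemLp Q 2 volume := hP.memLp_of_hasCompactSupport hP'

/-- the `L^2` norm of the marginal of a product of four functions -/
theorem marg_l2 {p q : ℝ × ℝ → ℝ} {r s : ℝ → ℝ} (hp : Continuous p) (hp' : HasCompactSupport p)
    (hq : Continuous q) (hq' : HasCompactSupport q) (hr : Continuous r)
    (hr' : HasCompactSupport r) (hs : Continuous s) (hs' : HasCompactSupport s) :
    ∫ u, (∫ x, p (x, u - x) * q (x, u - x) * (r x * s (u - x))) ^ 2 ≤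
      √(∫ z, p z ^ 4) * √(∫ z, q z ^ 4) * (√(∫ x, r x ^ 4) * √(∫ x, s x ^ 4)) := by
  set w : ℝ × ℝ → ℝ := fun z => (p z * q z) ^ 2 with hw
  have hwc : Continuous w := by fun_prop
  have hpq : HasCompactSupport (fun z => p z * q z) := hp'.mul_right
  have hw' : HasCompactSupport w := hpq.comp_left (g := fun x : ℝ => x ^ 2) (by norm_num)
  -- the pointwise bound
  have h1 : ∀ u, (∫ x, p (x, u - x) * q (x, u - x) * (r x * s (u - x))) ^ 2 ≤
      (∫ x, w (x, u - x)) * (√(∫ x, r x ^ 4) * √(∫ x, s x ^ 4)) := by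
    intro u
    obtain ⟨c, hc0, hc⟩ := box hpq
    have f1c : Continuous (fun x => p (x, u - x) * q (x, u - x)) := by fun_prop
    have f1s : HasCompactSupport (fun x => p (x, u - x) * q (x, u - x)) := by
      refine HasCompactSupport.intro (isCompact_Icc (a := -c) (b := c)) fun x hx => ?_
      by_contra h
      exact hx (abs_le.1 (hc (x, u - x) h).1)
    have f2c : Continuous (fun x => r x * s (u - x)) := by fun_prop
    have f2s : HasCompactSupport (fun x => r x * s (u - x)) := hr'.mul_right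
    have a1 := cs (memLp2 f1c f1s) (memLp2 f2c f2s)
    have a2 : |∫ x, p (x, u - x) * q (x, u - x) * (r x * s (u - x))| ≤
        ∫ x, |p (x, u - x) * q (x, u - x) * (r x * s (u - x))| := by
      rw [← Real.norm_eq_abs]
      exact norm_integral_le_integral_norm _
    have s1c : Continuous (fun x => s (u - x)) := by fun_prop
    have s1s : HasCompactSupport (fun x => s (u - x)) :=
      hs'.comp_homeomorph (Homeomorph.subLeft u)
    have r2 : MemLp (fun x => r x ^ 2) 2 volume :=
      memLp2 (by fun_prop) (hr'.comp_left (g := fun x : ℝ => x ^ 2) (by norm_num))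
    have s2 : MemLp (fun x => s (u - x) ^ 2) 2 volume :=
      memLp2 (by fun_prop) (s1s.comp_left (g := fun x : ℝ => x ^ 2) (by norm_num))
    have a3 := cs r2 s2
    have a4 : ∫ x, |r x ^ 2 * s (u - x) ^ 2| = ∫ x, (r x * s (u - x)) ^ 2 := by
      refine integral_congr_ae (Eventually.of_forall fun x => ?_)
      simp only
      rw [abs_of_nonneg (by positivity)]
      ring
    have a5 : ∫ x, (r x ^ 2) ^ 2 = ∫ x, r x ^ 4 := by
      refine integral_congr_ae (Eventually.of_forall fun x => ?_)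
      simp only
      ring
    have a6 : ∫ x, (s (u - x) ^ 2) ^ 2 = ∫ x, s x ^ 4 := by
      rw [← integral_sub_left_eq_self (fun x => s x ^ 4) volume u]
      refine integral_congr_ae (Eventually.of_forall fun x => ?_)
      simp only
      ring
    rw [a4, a5, a6] at a3
    have a7 := a2.trans a1
    have a8 : 0 ≤ ∫ x, (p (x, u - x) * q (x, u - x)) ^ 2 := integral_nonneg fun x => sq_nonneg _
    have a9 : 0 ≤ ∫ x, (r x * s (u - x)) ^ 2 := integral_nonneg fun x => sq_nonneg _
    calc (∫ x, p (x, u - x) * q (x, u - x) * (r x * s (u - x))) ^ 2 =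
          |∫ x, p (x, u - x) * q (x, u - x) * (r x * s (u - x))| ^ 2 := (sq_abs _).symm
      _ ≤ (√(∫ x, (p (x, u - x) * q (x, u - x)) ^ 2) * √(∫ x, (r x * s (u - x)) ^ 2)) ^ 2 :=
          pow_le_pow_left₀ (abs_nonneg _) a7 2
      _ = (∫ x, (p (x, u - x) * q (x, u - x)) ^ 2) * ∫ x, (r x * s (u - x)) ^ 2 := by
          rw [mul_pow, Real.sq_sqrt a8, Real.sq_sqrt a9]
      _ ≤ _ := mul_le_mul_of_nonneg_left a3 a8
  have h2 := marg (κ := fun _ => (1 : ℝ)) (P := w) (by simpa using intP hwc hw')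
  simp only [one_mul] at h2
  have h3 : Integrable (fun u => (∫ x, w (x, u - x)) * (√(∫ x, r x ^ 4) * √(∫ x, s x ^ 4)))
      volume := (int2 (marg_cont hwc hw') (marg_supp hw')).mul_const _
  have h4 := integral_mono_of_nonneg (Eventually.of_forall fun u => sq_nonneg _) h3
    (Eventually.of_forall h1)
  refine h4.trans ?_
  rw [integral_mul_const, ← h2]
  refine mul_le_mul_of_nonneg_right ?_ (by positivity)
  have p2' : MemLp (fun z => p z ^ 2) 2 volume :=
    mem2' (by fun_prop) (hp'.comp_left (g := fun x : ℝ => x ^ 2) (by norm_num))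
  have q2' : MemLp (fun z => q z ^ 2) 2 volume :=
    mem2' (by fun_prop) (hq'.comp_left (g := fun x : ℝ => x ^ 2) (by norm_num))
  have b1 := cs p2' q2'
  have b2 : ∫ z, |p z ^ 2 * q z ^ 2| = ∫ z, w z := by
    refine integral_congr_ae (Eventually.of_forall fun x => ?_)
    simp only [hw]
    rw [abs_of_nonneg (by positivity)]
    ring
  have b3 : ∀ f : ℝ × ℝ → ℝ, ∫ z, (f z ^ 2) ^ 2 = ∫ z, f z ^ 4 := by
    intro f
    refine integral_congr_ae (Eventually.of_forall fun x => ?_)
    simp only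
    ring
  rw [b2, b3, b3] at b1
  exact b1

/-- the four-variable estimate, both sides of the split of product type -/
theorem split22 {e N : ℝ} (he : 0 < e) (hN : e < N) {p q p' q' : ℝ × ℝ → ℝ} {r s r' s' : ℝ → ℝ}
    (hp : Continuous p) (hpc : HasCompactSupport p) (hq : Continuous q) (hqc : HasCompactSupport q)
    (hr : Continuous r) (hrc : HasCompactSupport r) (hs : Continuous s) (hsc : HasCompactSupport s)
    (hp' : Continuous p') (hpc' : HasCompactSupport p') (hq' : Continuous q')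
    (hqc' : HasCompactSupport q') (hr' : Continuous r') (hrc' : HasCompactSupport r')
    (hs' : Continuous s') (hsc' : HasCompactSupport s') :
    |∫ z : (ℝ × ℝ) × (ℝ × ℝ), trK e N ((z.1.1 + z.1.2) + (z.2.1 + z.2.2)) *
      ((p z.1 * q z.1 * (r z.1.1 * s z.1.2)) * (p' z.2 * q' z.2 * (r' z.2.1 * s' z.2.2)))| ≤
      6 * π * (√(√(∫ z, p z ^ 4) * √(∫ z, q z ^ 4) * (√(∫ x, r x ^ 4) * √(∫ x, s x ^ 4))) *
        √(√(∫ z, p' z ^ 4) * √(∫ z, q' z ^ 4) * (√(∫ x, r' x ^ 4) * √(∫ x, s' x ^ 4)))) := by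
  have hP : Continuous (fun z : ℝ × ℝ => p z * q z * (r z.1 * s z.2)) := by fun_prop
  have hPc : HasCompactSupport (fun z : ℝ × ℝ => p z * q z * (r z.1 * s z.2)) :=
    (hpc.mul_right).mul_right
  have hR : Continuous (fun z : ℝ × ℝ => p' z * q' z * (r' z.1 * s' z.2)) := by fun_prop
  have hRc : HasCompactSupport (fun z : ℝ × ℝ => p' z * q' z * (r' z.1 * s' z.2)) :=
    (hpc'.mul_right).mul_right
  have h1 := form_red (N := N) he hP hPc hR hRc
  rw [h1]
  have hA := marg_cont hP hPc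
  have hAc := marg_supp hPc
  have hB := marg_cont hR hRc
  have hBc := marg_supp hRc
  refine (form_l2 he hN hA hAc hB hBc).trans ?_
  refine mul_le_mul_of_nonneg_left ?_ (by positivity)
  refine mul_le_mul ?_ ?_ (Real.sqrt_nonneg _) (Real.sqrt_nonneg _)
  · exact Real.sqrt_le_sqrt (marg_l2 hp hpc hq hqc hr hrc hs hsc)
  · exact Real.sqrt_le_sqrt (marg_l2 hp' hpc' hq' hqc' hr' hrc' hs' hsc')

end

end Pool.Agent.Lib.MP_5ef378_an.SH31
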