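import Mathlib
import Pool.Agent.Lib.MP_5ef378_an.S22_31

/-!
Functions of four real variables: the product of two planes, splitting, the canonical 2|2 case.
-/

set_option autoImplicit false

namespace Pool.Agent.Lib.MP_5ef378_an.SH31

open MeasureTheory Filter Topology Real

abbrev R4 : Type := Fin 4 → ℝ

/-- the four coordinates as a pair of pairs -/
def e4 : (ℝ × ℝ) × (ℝ × ℝ) ≃ᵐ R4 where
  toFun z := ![z.1.1, z.1.2, z.2.1, z.2.2]
  invFun x := ((x 0, x 1), (x 2, x 3))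
  left_inv z := by simp
  right_inv x := by
    ext i
    fin_cases i <;> rfl
  measurable_toFun := by
    refine measurable_pi_iff.2 fun i => ?_
    fin_cases i
    · exact measurable_fst.fst
    · exact measurable_fst.snd
    · exact measurable_snd.fst
    · exact measurable_snd.snd
  measurable_invFun := by
    refine Measurable.prodMk (Measurable.prodMk ?_ ?_) (Measurable.prodMk ?_ ?_) <;>
    exact measurable_pi_apply _

theorem e4_mp : MeasurePreserving (e4 : (ℝ × ℝ) × (ℝ × ℝ) → R4) volume volume := by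
  refine ⟨e4.measurable, ?_⟩
  symm
  refine Measure.pi_eq fun s hs => ?_
  rw [Measure.map_apply e4.measurable (MeasurableSet.univ_pi hs)]
  have h : (e4 : (ℝ × ℝ) × (ℝ × ℝ) → R4) ⁻¹' (Set.univ.pi s) =
      (s 0 ×ˢ s 1) ×ˢ (s 2 ×ˢ s 3) := by
    ext z
    simp only [Set.mem_preimage, Set.mem_univ_pi, Set.mem_prod]
    constructor
    · intro h
      exact ⟨⟨h 0, h 1⟩, ⟨h 2, h 3⟩⟩
    · rintro ⟨⟨h0, h1⟩, ⟨h2, h3⟩⟩ i
      fin_cases i
      · exact h0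
      · exact h1
      · exact h2
      · exact h3
  rw [h, Measure.volume_eq_prod, Measure.prod_prod, Measure.volume_eq_prod, Measure.prod_prod,
    Measure.prod_prod, Fin.prod_univ_four]
  ring

theorem int4 (G : R4 → ℝ) :
    ∫ x, G x = ∫ z : (ℝ × ℝ) × (ℝ × ℝ), G ![z.1.1, z.1.2, z.2.1, z.2.2] := by
  rw [← e4_mp.integral_comp e4.measurableEmbedding]
  rfl

/-- `F` is the product of a function of the coordinates in `S` and one of the others -/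
def Splits (S : Set (Fin 4)) (F : R4 → ℝ) : Prop :=
  ∃ a b : R4 → ℝ, (∀ x y : R4, (∀ i ∈ S, x i = y i) → a x = a y) ∧
    (∀ x y : R4, (∀ i, i ∉ S → x i = y i) → b x = b y) ∧ ∀ x, F x = a x * b x

/-- `F` does not depend on the coordinate `i` -/
def Ind (i : Fin 4) (F : R4 → ℝ) : Prop := ∀ x y : R4, (∀ j, j ≠ i → x j = y j) → F x = F y

/-- bounded support in the coordinates other than `i` -/
def Bdd (i : Fin 4) (F : R4 → ℝ) : Prop := ∃ c : ℝ, ∀ x, F x ≠ 0 → ∀ j, j ≠ i → |x j| ≤ c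

/-- a test function of the coordinates other than `i` -/
structure Tst (i : Fin 4) (F : R4 → ℝ) : Prop where
  cont : Continuous F
  ind : Ind i F
  bdd : Bdd i F

/-- the indicator of the unit interval -/
noncomputable def u1 (t : ℝ) : ℝ := (Set.Icc (0 : ℝ) 1).indicator (fun _ => (1 : ℝ)) t

/-- the fourth power of the `L^4` norm of a function that does not depend on coordinate `i` -/
noncomputable def n4 (i : Fin 4) (F : R4 → ℝ) : ℝ := ∫ x : R4, u1 (x i) * F x ^ 4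

theorem splits_compl {S : Set (Fin 4)} {F : R4 → ℝ} (h : Splits S F) : Splits Sᶜ F := by
  obtain ⟨a, b, ha, hb, hF⟩ := h
  refine ⟨b, a, fun x y h => hb x y fun i hi => h i hi, fun x y h => ha x y fun i hi => h i ?_,
    fun x => by rw [hF, mul_comm]⟩
  simpa using hi

/-- rank one identity -/
theorem splits_rank {S : Set (Fin 4)} {F : R4 → ℝ} (h : Splits S F) {x y u v : R4}
    (h1 : ∀ i ∈ S, u i = x i) (h2 : ∀ i, i ∉ S → u i = y i)
    (h3 : ∀ i ∈ S, v i = y i) (h4 : ∀ i, i ∉ S → v i = x i) : F x * F y = F u * F v := by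
  obtain ⟨a, b, ha, hb, hF⟩ := h
  rw [hF, hF, hF, hF, ha u x h1, hb u y h2, ha v y h3, hb v x h4]
  ring

theorem u1_int : ∫ t, u1 t = 1 := by
  unfold u1
  rw [integral_indicator measurableSet_Icc]
  simp

theorem prodA (α β : ℝ × ℝ → ℝ) :
    ∫ z : (ℝ × ℝ) × (ℝ × ℝ), α z.1 * β z.2 = (∫ a, α a) * ∫ b, β b :=
  integral_prod_mul α β

theorem prodB (α β : ℝ → ℝ) : ∫ z : ℝ × ℝ, α z.1 * β z.2 = (∫ a, α a) * ∫ b, β b :=
  integral_prod_mul α β

theorem supp2 {p : ℝ × ℝ → ℝ} {c : ℝ} (h : ∀ z, p z ≠ 0 → |z.1| ≤ c ∧ |z.2| ≤ c) :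
    HasCompactSupport p := by
  refine HasCompactSupport.intro ((isCompact_Icc (a := -c) (b := c)).prod
    (isCompact_Icc (a := -c) (b := c))) fun z hz => ?_
  by_contra h0
  obtain ⟨h1, h2⟩ := h z h0
  exact hz ⟨abs_le.1 h1, abs_le.1 h2⟩

theorem supp1 {p : ℝ → ℝ} {c : ℝ} (h : ∀ z, p z ≠ 0 → |z| ≤ c) :
    HasCompactSupport p := by
  refine HasCompactSupport.intro (isCompact_Icc (a := -c) (b := c)) fun z hz => ?_
  by_contra h0
  exact hz (abs_le.1 (h z h0))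

/-- good pair of factors -/
structure GP (p : ℝ × ℝ → ℝ) (r : ℝ → ℝ) : Prop where
  pc : Continuous p
  ps : HasCompactSupport p
  rc : Continuous r
  rs : HasCompactSupport r

theorem gp0 : GP (fun _ => 0) (fun _ => 0) :=
  ⟨continuous_const, HasCompactSupport.zero, continuous_const, HasCompactSupport.zero⟩

theorem fac3 {F : R4 → ℝ} (hT : Tst 3 F) (hS : Splits {0, 1} F) :
    ∃ (p : ℝ × ℝ → ℝ) (r : ℝ → ℝ), GP p r ∧ ∀ x, F x = p (x 0, x 1) * r (x 2) := by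
  by_cases h : ∃ a, F a ≠ 0
  · obtain ⟨a, ha⟩ := h
    obtain ⟨c, hc⟩ := hT.bdd
    refine ⟨fun z => F ![z.1, z.2, a 2, a 3], fun t => F ![a 0, a 1, t, a 3] / F a, ⟨?_, ?_, ?_, ?_⟩, fun x => ?_⟩
    · refine hT.cont.comp (continuous_pi fun i => ?_)
      fin_cases i <;> simp <;> fun_prop
    · refine supp2 (c := c) fun z hz => ?_
      exact ⟨by simpa using hc _ hz 0 (by decide),
        by simpa using hc _ hz 1 (by decide)⟩
    · refine (hT.cont.comp (continuous_pi fun i => ?_)).div_const _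
      fin_cases i <;> simp <;> fun_prop
    · refine supp1 (c := c) fun t ht => ?_
      have h1 : F ![a 0, a 1, t, a 3] ≠ 0 := fun h0 => ht (by simp [h0])
      simpa using hc _ h1 2 (by decide)
    · have h1 : F x * F a = F ![x 0, x 1, a 2, a 3] * F ![a 0, a 1, x 2, x 3] := by
        refine splits_rank hS ?_ ?_ ?_ ?_ <;> intro j hj <;> fin_cases j <;> simp at hj ⊢
      have h2 : F ![a 0, a 1, x 2, x 3] = F ![a 0, a 1, x 2, a 3] := by
        refine hT.ind _ _ fun j hj => ?_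
        fin_cases j <;> simp at hj ⊢
      rw [h2] at h1
      simp only
      rw [← mul_div_assoc, ← h1, mul_div_assoc, div_self ha, mul_one]
  · push Not at h
    exact ⟨_, _, gp0, fun x => by simp [h x]⟩

theorem fac2 {F : R4 → ℝ} (hT : Tst 2 F) (hS : Splits {0, 1} F) :
    ∃ (p : ℝ × ℝ → ℝ) (r : ℝ → ℝ), GP p r ∧ ∀ x, F x = p (x 0, x 1) * r (x 3) := by
  by_cases h : ∃ a, F a ≠ 0
  · obtain ⟨a, ha⟩ := h
    obtain ⟨c, hc⟩ := hT.bdd
    refine ⟨fun z => F ![z.1, z.2, a 2, a 3], fun t => F ![a 0, a 1, a 2, t] / F a, ⟨?_, ?_, ?_, ?_⟩, fun x => ?_⟩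
    · refine hT.cont.comp (continuous_pi fun i => ?_)
      fin_cases i <;> simp <;> fun_prop
    · refine supp2 (c := c) fun z hz => ?_
      exact ⟨by simpa using hc _ hz 0 (by decide),
        by simpa using hc _ hz 1 (by decide)⟩
    · refine (hT.cont.comp (continuous_pi fun i => ?_)).div_const _
      fin_cases i <;> simp <;> fun_prop
    · refine supp1 (c := c) fun t ht => ?_
      have h1 : F ![a 0, a 1, a 2, t] ≠ 0 := fun h0 => ht (by simp [h0])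
      simpa using hc _ h1 3 (by decide)
    · have h1 : F x * F a = F ![x 0, x 1, a 2, a 3] * F ![a 0, a 1, x 2, x 3] := by
        refine splits_rank hS ?_ ?_ ?_ ?_ <;> intro j hj <;> fin_cases j <;> simp at hj ⊢
      have h2 : F ![a 0, a 1, x 2, x 3] = F ![a 0, a 1, a 2, x 3] := by
        refine hT.ind _ _ fun j hj => ?_
        fin_cases j <;> simp at hj ⊢
      rw [h2] at h1
      simp only
      rw [← mul_div_assoc, ← h1, mul_div_assoc, div_self ha, mul_one]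
  · push Not at h
    exact ⟨_, _, gp0, fun x => by simp [h x]⟩

theorem fac0 {F : R4 → ℝ} (hT : Tst 0 F) (hS : Splits {0, 1} F) :
    ∃ (p : ℝ × ℝ → ℝ) (r : ℝ → ℝ), GP p r ∧ ∀ x, F x = p (x 2, x 3) * r (x 1) := by
  by_cases h : ∃ a, F a ≠ 0
  · obtain ⟨a, ha⟩ := h
    obtain ⟨c, hc⟩ := hT.bdd
    refine ⟨fun z => F ![a 0, a 1, z.1, z.2], fun t => F ![a 0, t, a 2, a 3] / F a, ⟨?_, ?_, ?_, ?_⟩, fun x => ?_⟩
    · refine hT.cont.comp (continuous_pi fun i => ?_)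
      fin_cases i <;> simp <;> fun_prop
    · refine supp2 (c := c) fun z hz => ?_
      exact ⟨by simpa using hc _ hz 2 (by decide),
        by simpa using hc _ hz 3 (by decide)⟩
    · refine (hT.cont.comp (continuous_pi fun i => ?_)).div_const _
      fin_cases i <;> simp <;> fun_prop
    · refine supp1 (c := c) fun t ht => ?_
      have h1 : F ![a 0, t, a 2, a 3] ≠ 0 := fun h0 => ht (by simp [h0])
      simpa using hc _ h1 1 (by decide)
    · have h1 : F x * F a = F ![a 0, a 1, x 2, x 3] * F ![x 0, x 1, a 2, a 3] := by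
        rw [mul_comm (F ![a 0, a 1, x 2, x 3])]
        refine splits_rank hS ?_ ?_ ?_ ?_ <;> intro j hj <;> fin_cases j <;> simp at hj ⊢
      have h2 : F ![x 0, x 1, a 2, a 3] = F ![a 0, x 1, a 2, a 3] := by
        refine hT.ind _ _ fun j hj => ?_
        fin_cases j <;> simp at hj ⊢
      rw [h2] at h1
      simp only
      rw [← mul_div_assoc, ← h1, mul_div_assoc, div_self ha, mul_one]
  · push Not at h
    exact ⟨_, _, gp0, fun x => by simp [h x]⟩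

theorem fac1 {F : R4 → ℝ} (hT : Tst 1 F) (hS : Splits {0, 1} F) :
    ∃ (p : ℝ × ℝ → ℝ) (r : ℝ → ℝ), GP p r ∧ ∀ x, F x = p (x 2, x 3) * r (x 0) := by
  by_cases h : ∃ a, F a ≠ 0
  · obtain ⟨a, ha⟩ := h
    obtain ⟨c, hc⟩ := hT.bdd
    refine ⟨fun z => F ![a 0, a 1, z.1, z.2], fun t => F ![t, a 1, a 2, a 3] / F a, ⟨?_, ?_, ?_, ?_⟩, fun x => ?_⟩
    · refine hT.cont.comp (continuous_pi fun i => ?_)
      fin_cases i <;> simp <;> fun_prop
    · refine supp2 (c := c) fun z hz => ?_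
      exact ⟨by simpa using hc _ hz 2 (by decide),
        by simpa using hc _ hz 3 (by decide)⟩
    · refine (hT.cont.comp (continuous_pi fun i => ?_)).div_const _
      fin_cases i <;> simp <;> fun_prop
    · refine supp1 (c := c) fun t ht => ?_
      have h1 : F ![t, a 1, a 2, a 3] ≠ 0 := fun h0 => ht (by simp [h0])
      simpa using hc _ h1 0 (by decide)
    · have h1 : F x * F a = F ![a 0, a 1, x 2, x 3] * F ![x 0, x 1, a 2, a 3] := by
        rw [mul_comm (F ![a 0, a 1, x 2, x 3])]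
        refine splits_rank hS ?_ ?_ ?_ ?_ <;> intro j hj <;> fin_cases j <;> simp at hj ⊢
      have h2 : F ![x 0, x 1, a 2, a 3] = F ![x 0, a 1, a 2, a 3] := by
        refine hT.ind _ _ fun j hj => ?_
        fin_cases j <;> simp at hj ⊢
      rw [h2] at h1
      simp only
      rw [← mul_div_assoc, ← h1, mul_div_assoc, div_self ha, mul_one]
  · push Not at h
    exact ⟨_, _, gp0, fun x => by simp [h x]⟩

section
variable {F : R4 → ℝ} {p : ℝ × ℝ → ℝ} {r : ℝ → ℝ}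

theorem n4_3 (h : ∀ x, F x = p (x 0, x 1) * r (x 2)) :
    n4 3 F = (∫ z, p z ^ 4) * ∫ t, r t ^ 4 := by
  unfold n4
  rw [int4]
  have h1 : ∀ z : (ℝ × ℝ) × (ℝ × ℝ), u1 ((![z.1.1, z.1.2, z.2.1, z.2.2] : R4) 3) *
      F ![z.1.1, z.1.2, z.2.1, z.2.2] ^ 4 =
      (fun a : ℝ × ℝ => p a ^ 4) z.1 * (fun b : ℝ × ℝ => r b.1 ^ 4 * u1 b.2) z.2 := by
    intro z
    rw [h]
    change u1 z.2.2 * (p z.1 * r z.2.1) ^ 4 = p z.1 ^ 4 * (r z.2.1 ^ 4 * u1 z.2.2)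
    ring
  simp only [h1]
  rw [prodA (fun a : ℝ × ℝ => p a ^ 4) (fun b : ℝ × ℝ => r b.1 ^ 4 * u1 b.2),
    prodB (fun t => r t ^ 4) u1, u1_int, mul_one]

theorem n4_2 (h : ∀ x, F x = p (x 0, x 1) * r (x 3)) :
    n4 2 F = (∫ z, p z ^ 4) * ∫ t, r t ^ 4 := by
  unfold n4
  rw [int4]
  have h1 : ∀ z : (ℝ × ℝ) × (ℝ × ℝ), u1 ((![z.1.1, z.1.2, z.2.1, z.2.2] : R4) 2) *
      F ![z.1.1, z.1.2, z.2.1, z.2.2] ^ 4 =
      (fun a : ℝ × ℝ => p a ^ 4) z.1 * (fun b : ℝ × ℝ => u1 b.1 * r b.2 ^ 4) z.2 := by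
    intro z
    rw [h]
    change u1 z.2.1 * (p z.1 * r z.2.2) ^ 4 = p z.1 ^ 4 * (u1 z.2.1 * r z.2.2 ^ 4)
    ring
  simp only [h1]
  rw [prodA (fun a : ℝ × ℝ => p a ^ 4) (fun b : ℝ × ℝ => u1 b.1 * r b.2 ^ 4),
    prodB u1 (fun t => r t ^ 4), u1_int, one_mul]

theorem n4_0 (h : ∀ x, F x = p (x 2, x 3) * r (x 1)) :
    n4 0 F = (∫ z, p z ^ 4) * ∫ t, r t ^ 4 := by
  unfold n4
  rw [int4]
  have h1 : ∀ z : (ℝ × ℝ) × (ℝ × ℝ), u1 ((![z.1.1, z.1.2, z.2.1, z.2.2] : R4) 0) *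
      F ![z.1.1, z.1.2, z.2.1, z.2.2] ^ 4 =
      (fun b : ℝ × ℝ => u1 b.1 * r b.2 ^ 4) z.1 * (fun a : ℝ × ℝ => p a ^ 4) z.2 := by
    intro z
    rw [h]
    change u1 z.1.1 * (p z.2 * r z.1.2) ^ 4 = (u1 z.1.1 * r z.1.2 ^ 4) * p z.2 ^ 4
    ring
  simp only [h1]
  rw [prodA (fun b : ℝ × ℝ => u1 b.1 * r b.2 ^ 4) (fun a : ℝ × ℝ => p a ^ 4),
    prodB u1 (fun t => r t ^ 4), u1_int, one_mul, mul_comm]

theorem n4_1 (h : ∀ x, F x = p (x 2, x 3) * r (x 0)) :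
    n4 1 F = (∫ z, p z ^ 4) * ∫ t, r t ^ 4 := by
  unfold n4
  rw [int4]
  have h1 : ∀ z : (ℝ × ℝ) × (ℝ × ℝ), u1 ((![z.1.1, z.1.2, z.2.1, z.2.2] : R4) 1) *
      F ![z.1.1, z.1.2, z.2.1, z.2.2] ^ 4 =
      (fun b : ℝ × ℝ => r b.1 ^ 4 * u1 b.2) z.1 * (fun a : ℝ × ℝ => p a ^ 4) z.2 := by
    intro z
    rw [h]
    change u1 z.1.2 * (p z.2 * r z.1.1) ^ 4 = (r z.1.1 ^ 4 * u1 z.1.2) * p z.2 ^ 4
    ring
  simp only [h1]
  rw [prodA (fun b : ℝ × ℝ => r b.1 ^ 4 * u1 b.2) (fun a : ℝ × ℝ => p a ^ 4),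
    prodB (fun t => r t ^ 4) u1, u1_int, mul_one, mul_comm]

end

theorem i4_nonneg {α : Type*} [MeasurableSpace α] (μ : Measure α) (f : α → ℝ) :
    0 ≤ ∫ x, f x ^ 4 ∂μ := integral_nonneg fun x => by positivity

theorem sqrt8 {a b c d e f g h : ℝ} (ha : 0 ≤ a) (hb : 0 ≤ b) (hc : 0 ≤ c) (he : 0 ≤ e)
    (hf : 0 ≤ f) (hg : 0 ≤ g) (hd : 0 ≤ d) :
    √(√a * √b * (√c * √d)) * √(√e * √f * (√g * √h)) = √(√((a * b * (c * d)) * (e * f * (g * h)))) := by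
  rw [← Real.sqrt_mul ha, ← Real.sqrt_mul hc, ← Real.sqrt_mul (mul_nonneg ha hb),
    ← Real.sqrt_mul he, ← Real.sqrt_mul hg, ← Real.sqrt_mul (mul_nonneg he hf),
    ← Real.sqrt_mul (Real.sqrt_nonneg _), ← Real.sqrt_mul (by positivity)]

/-- the canonical 2|2 case -/
theorem can22 {e N : ℝ} (he : 0 < e) (hN : e < N) {F0 F1 F2 F3 : R4 → ℝ}
    (h0 : Tst 0 F0) (h1 : Tst 1 F1) (h2 : Tst 2 F2) (h3 : Tst 3 F3)
    (s0 : Splits {0, 1} F0) (s1 : Splits {0, 1} F1) (s2 : Splits {0, 1} F2)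
    (s3 : Splits {0, 1} F3) :
    |∫ x : R4, trK e N ((x 0 + x 1) + (x 2 + x 3)) * (F0 x * F1 x * F2 x * F3 x)| ≤
      6 * π * √(√(n4 0 F0 * n4 1 F1 * n4 2 F2 * n4 3 F3)) := by
  obtain ⟨p0, r0, g0, f0⟩ := fac0 h0 s0
  obtain ⟨p1, r1, g1, f1⟩ := fac1 h1 s1
  obtain ⟨p2, r2, g2, f2⟩ := fac2 h2 s2
  obtain ⟨p3, r3, g3, f3⟩ := fac3 h3 s3
  rw [n4_0 f0, n4_1 f1, n4_2 f2, n4_3 f3, int4]
  have h := split22 he hN g3.pc g3.ps g2.pc g2.ps g1.rc g1.rs g0.rc g0.rs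
    g0.pc g0.ps g1.pc g1.ps g3.rc g3.rs g2.rc g2.rs
  rw [sqrt8 (i4_nonneg _ _) (i4_nonneg _ _) (i4_nonneg _ _) (i4_nonneg _ _) (i4_nonneg _ _)
    (i4_nonneg _ _) (i4_nonneg _ _)] at h
  have e1 : ∀ z : (ℝ × ℝ) × (ℝ × ℝ), trK e N
      (((![z.1.1, z.1.2, z.2.1, z.2.2] : R4) 0 + (![z.1.1, z.1.2, z.2.1, z.2.2] : R4) 1) +
      ((![z.1.1, z.1.2, z.2.1, z.2.2] : R4) 2 + (![z.1.1, z.1.2, z.2.1, z.2.2] : R4) 3)) *
      (F0 ![z.1.1, z.1.2, z.2.1, z.2.2] * F1 ![z.1.1, z.1.2, z.2.1, z.2.2] *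
        F2 ![z.1.1, z.1.2, z.2.1, z.2.2] * F3 ![z.1.1, z.1.2, z.2.1, z.2.2]) =
      trK e N ((z.1.1 + z.1.2) + (z.2.1 + z.2.2)) *
      ((p3 z.1 * p2 z.1 * (r1 z.1.1 * r0 z.1.2)) * (p0 z.2 * p1 z.2 * (r3 z.2.1 * r2 z.2.2))) := by
    intro z
    rw [f0, f1, f2, f3]
    change trK e N ((z.1.1 + z.1.2) + (z.2.1 + z.2.2)) * ((p0 z.2 * r0 z.1.2) *
      (p1 z.2 * r1 z.1.1) * (p2 z.1 * r2 z.2.2) * (p3 z.1 * r3 z.2.1)) = _
    ring
  simp only [e1]
  refine h.trans (le_of_eq ?_)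
  congr 3
  ring

end Pool.Agent.Lib.MP_5ef378_an.SH31
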