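import Mathlib

/-!
# Hoelder for three functions in `L^4`
-/

set_option autoImplicit false

open MeasureTheory

namespace SH31

theorem rp52 (a : ℝ) : (a ^ 4) ^ (1 / 3 : ℝ) = |a| ^ (4 / 3 : ℝ) := by
  have h : a ^ 4 = |a| ^ (4 : ℝ) := by
    rw [show (4 : ℝ) = ((4 : ℕ) : ℝ) by norm_num, Real.rpow_natCast]
    rw [show (4 : ℕ) = 2 * 2 from rfl, pow_mul, pow_mul, sq_abs]
  rw [h, ← Real.rpow_mul (abs_nonneg a)]
  norm_num

theorem h3_52 {f g h : ℝ → ℝ} (hf : Continuous f) (hfs : HasCompactSupport f)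
    (hg : Continuous g) (hgs : HasCompactSupport g) (hh : Continuous h)
    (hhs : HasCompactSupport h) :
    (∫ x, |f x * g x * h x| ^ (4 / 3 : ℝ))
      ≤ ((∫ x, f x ^ 4) * (∫ x, g x ^ 4) * (∫ x, h x ^ 4)) ^ (1 / 3 : ℝ) := by
  have P : ∀ {u : ℝ → ℝ}, Continuous u → HasCompactSupport u →
      Integrable (fun x => u x ^ 4) := by
    intro u hu hus
    have h1 : HasCompactSupport (fun x => u x ^ 4) :=
      hus.comp_left (g := fun x : ℝ => x ^ 4) (by norm_num)
    have h2 : Continuous (fun x => u x ^ 4) := hu.pow 4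
    exact h2.integrable_of_hasCompactSupport h1
  have c : ∀ i : Fin 3, Continuous ((![f, g, h] : Fin 3 → ℝ → ℝ) i) := by
    intro i
    fin_cases i <;> simp <;> assumption
  have key := ENNReal.lintegral_prod_norm_pow_le (μ := (volume : Measure ℝ))
    (Finset.univ : Finset (Fin 3))
    (f := fun i x => ENNReal.ofReal ((![f, g, h] : Fin 3 → ℝ → ℝ) i x ^ 4))
    (fun i _ => by
      have h1 : Measurable (fun x : ℝ => ((![f, g, h] : Fin 3 → ℝ → ℝ) i x) ^ 4) :=
        (c i).measurable.pow_const 4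
      exact h1.ennreal_ofReal.aemeasurable)
    (p := fun _ => 1 / 3) (by simp) (by intro i _; norm_num)
  rw [Fin.prod_univ_three] at key
  simp only [Fin.prod_univ_three] at key
  simp only [Matrix.cons_val_zero, Matrix.cons_val_one, Matrix.cons_val] at key
  have n4 : ∀ a : ℝ, 0 ≤ a ^ 4 := fun a => by positivity
  have e1 : ∀ x, ENNReal.ofReal (f x ^ 4) ^ (1 / 3 : ℝ) * ENNReal.ofReal (g x ^ 4) ^ (1 / 3 : ℝ)
      * ENNReal.ofReal (h x ^ 4) ^ (1 / 3 : ℝ) = ENNReal.ofReal (|f x * g x * h x| ^ (4 / 3 : ℝ)) := by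
    intro x
    rw [ENNReal.ofReal_rpow_of_nonneg (n4 _) (by norm_num),
      ENNReal.ofReal_rpow_of_nonneg (n4 _) (by norm_num),
      ENNReal.ofReal_rpow_of_nonneg (n4 _) (by norm_num),
      ← ENNReal.ofReal_mul (by positivity), ← ENNReal.ofReal_mul (by positivity),
      rp52, rp52, rp52, abs_mul, abs_mul, Real.mul_rpow (by positivity) (by positivity),
      Real.mul_rpow (by positivity) (by positivity)]
  simp only [e1] at key
  have cI : Continuous fun x => |f x * g x * h x| ^ (4 / 3 : ℝ) :=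
    (((hf.mul hg).mul hh).abs).rpow_const fun x => Or.inr (by norm_num)
  have sI : HasCompactSupport fun x => |f x * g x * h x| ^ (4 / 3 : ℝ) :=
    ((hfs.mul_right (f' := g)).mul_right (f' := h)).comp_left
      (g := fun t : ℝ => |t| ^ (4 / 3 : ℝ)) (by simp [Real.zero_rpow])
  have iI := cI.integrable_of_hasCompactSupport (μ := volume) sI
  rw [← ofReal_integral_eq_lintegral_ofReal iI
      (Filter.Eventually.of_forall fun x => by positivity),
    ← ofReal_integral_eq_lintegral_ofReal (P hf hfs)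
      (Filter.Eventually.of_forall fun x => n4 _),
    ← ofReal_integral_eq_lintegral_ofReal (P hg hgs)
      (Filter.Eventually.of_forall fun x => n4 _),
    ← ofReal_integral_eq_lintegral_ofReal (P hh hhs)
      (Filter.Eventually.of_forall fun x => n4 _)] at key
  have nf : 0 ≤ ∫ x, f x ^ 4 := integral_nonneg fun x => n4 _
  have ng : 0 ≤ ∫ x, g x ^ 4 := integral_nonneg fun x => n4 _
  have nh : 0 ≤ ∫ x, h x ^ 4 := integral_nonneg fun x => n4 _
  rw [ENNReal.ofReal_rpow_of_nonneg nf (by norm_num),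
    ENNReal.ofReal_rpow_of_nonneg ng (by norm_num),
    ENNReal.ofReal_rpow_of_nonneg nh (by norm_num),
    ← ENNReal.ofReal_mul (by positivity), ← ENNReal.ofReal_mul (by positivity)] at key
  rw [Real.mul_rpow (mul_nonneg nf ng) nh, Real.mul_rpow nf ng]
  exact (ENNReal.ofReal_le_ofReal_iff (by positivity)).1 key

end SH31
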