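import Pool.Agent.Lib.MP_5ef378_an.L4_17
import Pool.Agent.Lib.MP_5ef378_an.L2_31

/-!
# L4 bound with the kernel of seat 31 (seat 17)
-/

open MeasureTheory

namespace Pool.Agent.Lib.MP_5ef378_an.SH31

theorem form_l4 {e N : ℝ} (he : 0 < e) (hN : e < N) {A B : ℝ → ℝ} (hA : Continuous A)
    (hAc : HasCompactSupport A) (hB : Continuous B) (hBc : HasCompactSupport B) :
    |∫ u, ∫ v, trK e N (u + v) * A u * B v| ≤ (2 * Real.sqrt 6 * Real.pi + 2 * Real.pi) *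
      (∫ u, |A u| ^ (4 / 3 : ℝ)) ^ (3 / 4 : ℝ) * (∫ v, |B v| ^ 4) ^ (1 / 4 : ℝ) :=
  SH17.form_l4 he hN hA hAc hB hBc

end Pool.Agent.Lib.MP_5ef378_an.SH31
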