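import Mathlib
import Pool.Agent.Lib.MP_5ef378_an.Core_31

/-!
Permutations of the four variables.
-/

set_option autoImplicit false

namespace Pool.Agent.Lib.MP_5ef378_an.SH31

open MeasureTheory Filter Topology Real

theorem intperm (σ : Equiv.Perm (Fin 4)) (G : R4 → ℝ) :
    ∫ x, G x = ∫ x : R4, G (fun i => x (σ i)) := by
  have h := (volume_measurePreserving_piCongrLeft (fun _ : Fin 4 => ℝ) σ.symm).integral_comp
    (MeasurableEquiv.measurableEmbedding _) G
  rw [← h]
  refine integral_congr_ae (Eventually.of_forall fun x => ?_)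
  simp only
  congr 1
  ext i
  have := MeasurableEquiv.piCongrLeft_apply_apply (β := fun _ : Fin 4 => ℝ) σ.symm x (σ i)
  simpa using this

/-- relabelling -/
def rel (σ : Equiv.Perm (Fin 4)) (F : Fin 4 → R4 → ℝ) (i : Fin 4) (x : R4) : ℝ :=
  F (σ i) (fun j => x (σ.symm j))

theorem rel_tst (σ : Equiv.Perm (Fin 4)) {F : Fin 4 → R4 → ℝ} (h : ∀ i, Tst i (F i)) (i : Fin 4) :
    Tst i (rel σ F i) := by
  refine ⟨(h (σ i)).cont.comp (continuous_pi fun j => continuous_apply _), fun x y hxy => ?_, ?_⟩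
  · refine (h (σ i)).ind _ _ fun j hj => hxy _ fun h0 => hj ?_
    rw [← h0]; simp
  · obtain ⟨c, hc⟩ := (h (σ i)).bdd
    refine ⟨c, fun x hx j hj => ?_⟩
    have := hc _ hx (σ j) (fun h0 => hj (σ.injective h0))
    simpa using this

theorem rel_splits (σ : Equiv.Perm (Fin 4)) {F : Fin 4 → R4 → ℝ} {S : Set (Fin 4)} {i : Fin 4}
    (h : Splits S (F (σ i))) : Splits {j | σ j ∈ S} (rel σ F i) := by
  obtain ⟨a, b, ha, hb, hF⟩ := h
  refine ⟨fun x => a (fun j => x (σ.symm j)), fun x => b (fun j => x (σ.symm j)),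
    fun x y h => ha _ _ fun j hj => h _ (by simpa using hj),
    fun x y h => hb _ _ fun j hj => h _ (by simpa using hj), fun x => hF _⟩

theorem rel_n4 (σ : Equiv.Perm (Fin 4)) (F : Fin 4 → R4 → ℝ) (i : Fin 4) :
    n4 i (rel σ F i) = n4 (σ i) (F (σ i)) := by
  unfold n4 rel
  rw [intperm σ]
  simp

theorem rel_form (σ : Equiv.Perm (Fin 4)) (F : Fin 4 → R4 → ℝ) (κ : ℝ → ℝ) :
    ∫ x : R4, κ (∑ i, x i) * ∏ i, rel σ F i x = ∫ x : R4, κ (∑ i, x i) * ∏ i, F i x := by
  rw [intperm σ]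
  refine integral_congr_ae (Eventually.of_forall fun x => ?_)
  simp only [rel, Equiv.apply_symm_apply]
  rw [Equiv.sum_comp σ x, Equiv.prod_comp σ (fun i => F i x)]

theorem exists_perm_fin : ∀ T : Finset (Fin 4), T.Nonempty → T ≠ Finset.univ →
    ∃ a b c d : Fin 4, (∀ i, (Equiv.swap a b * Equiv.swap c d) i ∈ T ↔ i = 0 ∨ i = 1) ∨
      (∀ i, (Equiv.swap a b * Equiv.swap c d) i ∈ T ↔ i = 3) ∨
      (∀ i, (Equiv.swap a b * Equiv.swap c d) i ∈ T ↔ ¬ i = 3) := by
  decide

theorem exists_perm {S : Set (Fin 4)} (h1 : S.Nonempty) (h2 : Sᶜ.Nonempty) :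
    ∃ σ : Equiv.Perm (Fin 4), {i | σ i ∈ S} = {0, 1} ∨ {i | σ i ∈ S} = {3} ∨
      {i | σ i ∈ S} = {3}ᶜ := by
  classical
  obtain ⟨a, b, c, d, h⟩ := exists_perm_fin (Finset.univ.filter (· ∈ S))
    (by obtain ⟨x, hx⟩ := h1; exact ⟨x, by simpa using hx⟩)
    (by
      obtain ⟨x, hx⟩ := h2
      intro h0
      have : x ∈ Finset.univ.filter (· ∈ S) := by rw [h0]; exact Finset.mem_univ _
      exact hx (by simpa using this))
  refine ⟨Equiv.swap a b * Equiv.swap c d, ?_⟩
  rcases h with h | h | h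
  · left
    ext i
    have := h i
    simpa using this
  · right; left
    ext i
    have := h i
    simpa using this
  · right; right
    ext i
    have := h i
    simpa using this

end Pool.Agent.Lib.MP_5ef378_an.SH31
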