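import Mathlib

/-!
# Row S13: a Loomis-Whitney type bound on the planes `x + y + z = v`
-/

set_option autoImplicit false

open MeasureTheory

namespace SH31

/-- Cauchy-Schwarz for real integrals. -/
theorem cs52 {X : Type*} [MeasureSpace X] {a b : X → ℝ}
    (ha : Integrable (fun x => a x ^ 2)) (hb : Integrable (fun x => b x ^ 2))
    (hab : Integrable (fun x => a x * b x)) :
    (∫ x, a x * b x) ^ 2 ≤ (∫ x, a x ^ 2) * (∫ x, b x ^ 2) := by
  have h : ∀ t : ℝ, 0 ≤ (∫ x, a x ^ 2) * (t * t) + (-2 * ∫ x, a x * b x) * t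
      + ∫ x, b x ^ 2 := by
    intro t
    have h0 : 0 ≤ ∫ x, (t * a x - b x) ^ 2 := integral_nonneg fun x => sq_nonneg _
    have h1 : (∫ x, (t * a x - b x) ^ 2)
        = (∫ x, (t ^ 2 * a x ^ 2 + (-2 * t) * (a x * b x))) + ∫ x, b x ^ 2 := by
      rw [← integral_add]
      · refine integral_congr_ae (Filter.Eventually.of_forall fun x => ?_)
        ring
      · exact (ha.const_mul (t ^ 2)).add (hab.const_mul (-2 * t))
      · exact hb
    rw [h1, integral_add (ha.const_mul (t ^ 2)) (hab.const_mul (-2 * t)),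
      integral_const_mul, integral_const_mul] at h0
    nlinarith [h0]
  have h2 := discrim_le_zero h
  unfold discrim at h2
  nlinarith [h2]

/-- Four continuous functions with compact support. -/
theorem four52 {f g h k : ℝ × ℝ → ℝ} (hf : Continuous f) (hfs : HasCompactSupport f)
    (hg : Continuous g) (hgs : HasCompactSupport g) (hh : Continuous h)
    (hhs : HasCompactSupport h) (hk : Continuous k) (hks : HasCompactSupport k) :
    (∫ p, f p * g p * h p * k p) ^ 4
      ≤ (∫ p, f p ^ 4) * (∫ p, g p ^ 4) * (∫ p, h p ^ 4) * (∫ p, k p ^ 4) := by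
  have I : ∀ {u : ℝ × ℝ → ℝ}, Continuous u → HasCompactSupport u → Integrable u :=
    fun hu hus => hu.integrable_of_hasCompactSupport hus
  have P : ∀ {u : ℝ × ℝ → ℝ} (n : ℕ), n ≠ 0 → HasCompactSupport u →
      HasCompactSupport (fun p => u p ^ n) := fun {u} n hn hu =>
    hu.comp_left (g := fun x : ℝ => x ^ n) (by simp [hn])
  have M : ∀ {u w : ℝ × ℝ → ℝ}, HasCompactSupport u →
      HasCompactSupport (fun p => u p * w p) := fun {u w} hu => hu.mul_right
  have hfg := M (w := g) hfs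
  have hhk := M (w := k) hhs
  have e1 : (∫ p, f p * g p * h p * k p) ^ 2
      ≤ (∫ p, (f p * g p) ^ 2) * (∫ p, (h p * k p) ^ 2) := by
    have e := cs52 (a := fun p => f p * g p) (b := fun p => h p * k p)
      (I ((hf.mul hg).pow 2) (P 2 two_ne_zero hfg)) (I ((hh.mul hk).pow 2) (P 2 two_ne_zero hhk))
      (I ((hf.mul hg).mul (hh.mul hk)) (M hfg))
    have e' : (∫ p, f p * g p * h p * k p) = ∫ p, (f p * g p) * (h p * k p) := by
      refine integral_congr_ae (Filter.Eventually.of_forall fun p => ?_)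
      ring
    rw [e']
    exact e
  have e2 : (∫ p, (f p * g p) ^ 2) ^ 2 ≤ (∫ p, f p ^ 4) * (∫ p, g p ^ 4) := by
    have e := cs52 (a := fun p => f p ^ 2) (b := fun p => g p ^ 2)
      (by
        have : (fun p => (f p ^ 2) ^ 2) = fun p => f p ^ 4 := by funext p; ring
        rw [this]; exact I (hf.pow 4) (P 4 (by norm_num) hfs))
      (by
        have : (fun p => (g p ^ 2) ^ 2) = fun p => g p ^ 4 := by funext p; ring
        rw [this]; exact I (hg.pow 4) (P 4 (by norm_num) hgs))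
      (I ((hf.pow 2).mul (hg.pow 2)) (M (P 2 two_ne_zero hfs)))
    have a1 : (∫ p, (f p ^ 2) ^ 2) = ∫ p, f p ^ 4 := by
      congr 1; funext p; ring
    have a2 : (∫ p, (g p ^ 2) ^ 2) = ∫ p, g p ^ 4 := by
      congr 1; funext p; ring
    have a3 : (∫ p, (f p * g p) ^ 2) = ∫ p, f p ^ 2 * g p ^ 2 := by
      congr 1; funext p; ring
    rw [a3, ← a1, ← a2]
    exact e
  have e3 : (∫ p, (h p * k p) ^ 2) ^ 2 ≤ (∫ p, h p ^ 4) * (∫ p, k p ^ 4) := by
    have e := cs52 (a := fun p => h p ^ 2) (b := fun p => k p ^ 2)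
      (by
        have : (fun p => (h p ^ 2) ^ 2) = fun p => h p ^ 4 := by funext p; ring
        rw [this]; exact I (hh.pow 4) (P 4 (by norm_num) hhs))
      (by
        have : (fun p => (k p ^ 2) ^ 2) = fun p => k p ^ 4 := by funext p; ring
        rw [this]; exact I (hk.pow 4) (P 4 (by norm_num) hks))
      (I ((hh.pow 2).mul (hk.pow 2)) (M (P 2 two_ne_zero hhs)))
    have a1 : (∫ p, (h p ^ 2) ^ 2) = ∫ p, h p ^ 4 := by
      congr 1; funext p; ring
    have a2 : (∫ p, (k p ^ 2) ^ 2) = ∫ p, k p ^ 4 := by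
      congr 1; funext p; ring
    have a3 : (∫ p, (h p * k p) ^ 2) = ∫ p, h p ^ 2 * k p ^ 2 := by
      congr 1; funext p; ring
    rw [a3, ← a1, ← a2]
    exact e
  calc (∫ p, f p * g p * h p * k p) ^ 4 = ((∫ p, f p * g p * h p * k p) ^ 2) ^ 2 := by ring
    _ ≤ ((∫ p, (f p * g p) ^ 2) * (∫ p, (h p * k p) ^ 2)) ^ 2 :=
        pow_le_pow_left₀ (sq_nonneg _) e1 2
    _ = (∫ p, (f p * g p) ^ 2) ^ 2 * (∫ p, (h p * k p) ^ 2) ^ 2 := by ring
    _ ≤ ((∫ p, f p ^ 4) * (∫ p, g p ^ 4)) * ((∫ p, h p ^ 4) * (∫ p, k p ^ 4)) :=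
        mul_le_mul e2 e3 (sq_nonneg _)
          (mul_nonneg (integral_nonneg fun p => by positivity)
            (integral_nonneg fun p => by positivity))
    _ = _ := by ring

theorem shiftH52 {Q : ℝ × ℝ → ℝ} (hQ : Continuous Q) (hQs : HasCompactSupport Q) (v : ℝ) :
    HasCompactSupport (fun p : ℝ × ℝ => Q (p.2, v - p.1 - p.2)) ∧
      (∫ p : ℝ × ℝ, Q (p.2, v - p.1 - p.2)) = ∫ p, Q p := by
  let S : (ℝ × ℝ) ≃ₜ (ℝ × ℝ) :=
    { toFun := fun q => (q.2, v - q.1 - q.2)
      invFun := fun q => (v - q.2 - q.1, q.1)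
      left_inv := fun q => by
        ext
        · simp only
          ring
        · rfl
      right_inv := fun q => by
        ext
        · rfl
        · simp only
          ring
      continuous_toFun := by fun_prop
      continuous_invFun := by fun_prop }
  have hs : HasCompactSupport (fun p : ℝ × ℝ => Q (p.2, v - p.1 - p.2)) := hQs.comp_homeomorph S
  have hc : Continuous (fun p : ℝ × ℝ => Q (p.2, v - p.1 - p.2)) := by fun_prop
  refine ⟨hs, ?_⟩
  rw [Measure.volume_eq_prod, integral_prod_symm _ (hc.integrable_of_hasCompactSupport hs),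
    integral_prod _ (hQ.integrable_of_hasCompactSupport hQs)]
  refine integral_congr_ae (Filter.Eventually.of_forall fun y => ?_)
  have e := integral_sub_left_eq_self (fun w => Q (y, w)) volume (v - y)
  simp only at e ⊢
  rw [← e]
  refine integral_congr_ae (Filter.Eventually.of_forall fun x => ?_)
  simp only
  congr 2
  ring

theorem shiftK52 {Q : ℝ × ℝ → ℝ} (hQ : Continuous Q) (hQs : HasCompactSupport Q) (v : ℝ) :
    HasCompactSupport (fun p : ℝ × ℝ => Q (v - p.1 - p.2, p.1)) ∧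
      (∫ p : ℝ × ℝ, Q (v - p.1 - p.2, p.1)) = ∫ p, Q p := by
  let S : (ℝ × ℝ) ≃ₜ (ℝ × ℝ) :=
    { toFun := fun q => (v - q.1 - q.2, q.1)
      invFun := fun q => (q.2, v - q.1 - q.2)
      left_inv := fun q => by
        ext
        · rfl
        · simp only
          ring
      right_inv := fun q => by
        ext
        · simp only
          ring
        · rfl
      continuous_toFun := by fun_prop
      continuous_invFun := by fun_prop }
  have hs : HasCompactSupport (fun p : ℝ × ℝ => Q (v - p.1 - p.2, p.1)) := hQs.comp_homeomorph S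
  have hc : Continuous (fun p : ℝ × ℝ => Q (v - p.1 - p.2, p.1)) := by fun_prop
  refine ⟨hs, ?_⟩
  rw [Measure.volume_eq_prod, integral_prod _ (hc.integrable_of_hasCompactSupport hs),
    integral_prod_symm _ (hQ.integrable_of_hasCompactSupport hQs)]
  refine integral_congr_ae (Filter.Eventually.of_forall fun y => ?_)
  have e := integral_sub_left_eq_self (fun w => Q (w, y)) volume (v - y)
  simp only at e ⊢
  exact e

theorem pow52 {X : Type*} [TopologicalSpace X] {u : X → ℝ} (hu : HasCompactSupport u) :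
    HasCompactSupport (fun p => u p ^ 4) :=
  hu.comp_left (g := fun x : ℝ => x ^ 4) (by norm_num)

theorem shearF52 {Q : ℝ × ℝ × ℝ → ℝ}
    (iQ : Integrable Q (volume : Measure (ℝ × ℝ × ℝ)))
    (iS : Integrable (fun q : ℝ × ℝ × ℝ => Q (q.1 - q.2.1 - q.2.2, q.2.1, q.2.2))
      (volume : Measure (ℝ × ℝ × ℝ))) :
    (∫ v, ∫ p : ℝ × ℝ, Q (v - p.1 - p.2, p.1, p.2)) = ∫ q, Q q := by
  have iS' : Integrable (Function.uncurry fun (v : ℝ) (p : ℝ × ℝ) =>
      Q (v - p.1 - p.2, p.1, p.2)) ((volume : Measure ℝ).prod (volume : Measure (ℝ × ℝ))) := iS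
  have iQ' : Integrable Q ((volume : Measure ℝ).prod (volume : Measure (ℝ × ℝ))) := iQ
  rw [integral_integral_swap iS']
  have h2 : (∫ q, Q q) = ∫ p : ℝ × ℝ, ∫ x : ℝ, Q (x, p) := by
    rw [Measure.volume_eq_prod ℝ (ℝ × ℝ)]
    exact integral_prod_symm Q iQ'
  rw [h2]
  refine integral_congr_ae (Filter.Eventually.of_forall fun p => ?_)
  have e := integral_sub_right_eq_self (μ := (volume : Measure ℝ))
    (fun x : ℝ => Q (x, p)) (p.1 + p.2)
  have e' : ∀ x : ℝ, Q (x - (p.1 + p.2), p) = Q (x - p.1 - p.2, p.1, p.2) := by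
    intro x
    rw [sub_add_eq_sub_sub]
  simp only [e'] at e
  exact e

theorem s13p {F : ℝ × ℝ × ℝ → ℝ} {G H K : ℝ × ℝ → ℝ}
    (hF : Continuous F) (hFs : HasCompactSupport F)
    (hG : Continuous G) (hGs : HasCompactSupport G)
    (hH : Continuous H) (hHs : HasCompactSupport H)
    (hK : Continuous K) (hKs : HasCompactSupport K)
    {B : ℝ → ℝ}
    (hB : (∀ v, B v = ∫ y, ∫ z, F (v - y - z, y, z) * G (y, z) * H (z, v - y - z)
      * K (v - y - z, y)) ∨ ∀ v, B v = ∫ p : ℝ × ℝ, F (v - p.1 - p.2, p.1, p.2) * G (p.1, p.2)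
      * H (p.2, v - p.1 - p.2) * K (v - p.1 - p.2, p.1)) :
    Continuous B ∧ HasCompactSupport B ∧
      (∫ v, B v ^ 4) ≤ (∫ p, F p ^ 4) * (∫ p, G p ^ 4) * (∫ p, H p ^ 4) * (∫ p, K p ^ 4) := by
  -- the shear
  let S : (ℝ × ℝ × ℝ) ≃ₜ (ℝ × ℝ × ℝ) :=
    { toFun := fun q => (q.1 - q.2.1 - q.2.2, q.2.1, q.2.2)
      invFun := fun q => (q.1 + q.2.1 + q.2.2, q.2.1, q.2.2)
      left_inv := fun q => by
        ext
        · simp only
          ring
        · rfl
        · rfl
      right_inv := fun q => by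
        ext
        · simp only
          ring
        · rfl
        · rfl
      continuous_toFun := by fun_prop
      continuous_invFun := by fun_prop }
  let Φ : ℝ → ℝ × ℝ → ℝ := fun v p => F (v - p.1 - p.2, p.1, p.2) * G (p.1, p.2)
    * H (p.2, v - p.1 - p.2) * K (v - p.1 - p.2, p.1)
  have cΦ : Continuous (Function.uncurry Φ) := by
    simp only [Φ, Function.uncurry_def]
    fun_prop
  have sS : HasCompactSupport (fun q : ℝ × ℝ × ℝ => F (S q)) := hFs.comp_homeomorph S
  have sΦ : HasCompactSupport (Function.uncurry Φ) := by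
    have := ((sS.mul_right (f' := fun q : ℝ × ℝ × ℝ => G (q.2.1, q.2.2))).mul_right
      (f' := fun q : ℝ × ℝ × ℝ => H (q.2.2, q.1 - q.2.1 - q.2.2))).mul_right
      (f' := fun q : ℝ × ℝ × ℝ => K (q.1 - q.2.1 - q.2.2, q.2.1))
    exact this
  have cv : ∀ v, Continuous (Φ v) := fun v => cΦ.comp (by fun_prop : Continuous fun p => (v, p))
  let T : Set (ℝ × ℝ) := Prod.snd '' tsupport (Function.uncurry Φ)
  have hT : IsCompact T := sΦ.isCompact.image continuous_snd
  have zT : ∀ v p, p ∉ T → Φ v p = 0 := by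
    intro v p hp
    by_contra hne
    exact hp ⟨(v, p), subset_tsupport _ hne, rfl⟩
  have sv : ∀ v, HasCompactSupport (Φ v) := fun v =>
    HasCompactSupport.intro hT fun p hp => zT v p hp
  have hB2 : ∀ v, B v = ∫ p, Φ v p := by
    intro v
    rcases hB with hB | hB
    · rw [hB v]
      exact (integral_prod (Φ v) ((cv v).integrable_of_hasCompactSupport (sv v))).symm
    · rw [hB v]
  have cB : Continuous B := by
    have h1 : B = fun v => ∫ p in T, Φ v p := by
      funext v
      rw [hB2 v]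
      refine (setIntegral_eq_integral_of_forall_compl_eq_zero fun p hp => zT v p hp).symm
    rw [h1]
    exact continuous_parametric_integral_of_continuous cΦ hT
  have sB : HasCompactSupport B := by
    refine HasCompactSupport.intro (sΦ.isCompact.image continuous_fst) fun v hv => ?_
    rw [hB2 v]
    have : ∀ p, Φ v p = 0 := by
      intro p
      by_contra hne
      exact hv ⟨(v, p), subset_tsupport _ hne, rfl⟩
    simp [this]
  refine ⟨cB, sB, ?_⟩
  · have cF4 : Continuous (fun q : ℝ × ℝ × ℝ => F (q.1 - q.2.1 - q.2.2, q.2.1, q.2.2) ^ 4) := by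
      fun_prop
    have sF4 : HasCompactSupport
        (fun q : ℝ × ℝ × ℝ => F (q.1 - q.2.1 - q.2.2, q.2.1, q.2.2) ^ 4) := pow52 sS
    have iF4 := cF4.integrable_of_hasCompactSupport (μ := volume) sF4
    have sf : ∀ v, HasCompactSupport (fun p : ℝ × ℝ => F (v - p.1 - p.2, p.1, p.2)) := by
      intro v
      refine HasCompactSupport.intro (K := Prod.snd '' tsupport (fun q : ℝ × ℝ × ℝ => F (S q)))
        (sS.isCompact.image continuous_snd) fun p hp => ?_
      by_contra hne
      exact hp ⟨(v, p), subset_tsupport _ hne, rfl⟩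
    have hpt : ∀ v, B v ^ 4 ≤ (∫ p : ℝ × ℝ, F (v - p.1 - p.2, p.1, p.2) ^ 4)
        * ((∫ p, G p ^ 4) * (∫ p, H p ^ 4) * (∫ p, K p ^ 4)) := by
      intro v
      have e := four52 (f := fun p : ℝ × ℝ => F (v - p.1 - p.2, p.1, p.2)) (g := G)
        (h := fun p : ℝ × ℝ => H (p.2, v - p.1 - p.2))
        (k := fun p : ℝ × ℝ => K (v - p.1 - p.2, p.1)) (by fun_prop) (sf v) hG hGs
        (by fun_prop) (shiftH52 hH hHs v).1 (by fun_prop) (shiftK52 hK hKs v).1
      have eH := (shiftH52 (Q := fun p => H p ^ 4) (hH.pow 4) (pow52 hHs) v).2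
      have eK := (shiftK52 (Q := fun p => K p ^ 4) (hK.pow 4) (pow52 hKs) v).2
      rw [eH, eK] at e
      rw [hB2 v]
      have e5 : (∫ p : ℝ × ℝ, F (v - p.1 - p.2, p.1, p.2) ^ 4)
          * ((∫ p, G p ^ 4) * (∫ p, H p ^ 4) * (∫ p, K p ^ 4))
          = (∫ p : ℝ × ℝ, F (v - p.1 - p.2, p.1, p.2) ^ 4) * (∫ p, G p ^ 4)
            * (∫ p, H p ^ 4) * (∫ p, K p ^ 4) := by ring
      rw [e5]
      exact e
    have iB : Integrable (fun v => B v ^ 4) :=
      (cB.pow 4).integrable_of_hasCompactSupport (pow52 sB)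
    have iR : Integrable (fun v => (∫ p : ℝ × ℝ, F (v - p.1 - p.2, p.1, p.2) ^ 4)
        * ((∫ p, G p ^ 4) * (∫ p, H p ^ 4) * (∫ p, K p ^ 4))) := by
      refine Integrable.mul_const ?_ _
      exact Integrable.integral_prod_left (f := fun q : ℝ × ℝ × ℝ =>
        F (q.1 - q.2.1 - q.2.2, q.2.1, q.2.2) ^ 4) iF4
    have e1 := integral_mono iB iR hpt
    rw [integral_mul_const] at e1
    have iF : Integrable (fun q => F q ^ 4) (volume : Measure (ℝ × ℝ × ℝ)) :=
      (hF.pow 4).integrable_of_hasCompactSupport (pow52 hFs)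
    have e2 := shearF52 (Q := fun q => F q ^ 4) iF iF4
    rw [e2] at e1
    calc (∫ v, B v ^ 4) ≤ _ := e1
      _ = _ := by ring

theorem s13 {F : ℝ × ℝ × ℝ → ℝ} {G H K : ℝ × ℝ → ℝ}
    (hF : Continuous F) (hFs : HasCompactSupport F)
    (hG : Continuous G) (hGs : HasCompactSupport G)
    (hH : Continuous H) (hHs : HasCompactSupport H)
    (hK : Continuous K) (hKs : HasCompactSupport K)
    {B : ℝ → ℝ}
    (hB : ∀ v, B v = ∫ y, ∫ z, F (v - y - z, y, z) * G (y, z) * H (z, v - y - z)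
      * K (v - y - z, y)) :
    Continuous B ∧ HasCompactSupport B ∧
      (∫ v, B v ^ 4) ≤ (∫ p, F p ^ 4) * (∫ p, G p ^ 4) * (∫ p, H p ^ 4) * (∫ p, K p ^ 4) :=
  s13p hF hFs hG hGs hH hHs hK hKs (Or.inl hB)

end SH31
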