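import Mathlib
import Pool.Agent.Lib.MP_5ef378_an.Core_31
import Pool.Agent.Lib.MP_5ef378_an.Perm_31
import Pool.Agent.Lib.MP_5ef378_an.S13_52
import Pool.Agent.Lib.MP_5ef378_an.H3_52
import Pool.Agent.Lib.MP_5ef378_an.L4_17f

/-!
# The canonical `3 | 1` case: factors and norms
-/

set_option autoImplicit false

namespace Pool.Agent.Lib.MP_5ef378_an.SH31

open MeasureTheory Filter Topology Real

theorem facA0 {F : R4 → ℝ} (hT : Tst 0 F) (hS : Splits {3} F) :
    ∃ (p : ℝ × ℝ → ℝ) (r : ℝ → ℝ), GP p r ∧ ∀ x, F x = p (x 1, x 2) * r (x 3) := by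
  by_cases h : ∃ a, F a ≠ 0
  · obtain ⟨a, ha⟩ := h
    obtain ⟨c, hc⟩ := hT.bdd
    refine ⟨fun z => F ![a 0, z.1, z.2, a 3], fun t => F ![a 0, a 1, a 2, t] / F a, ⟨?_, ?_, ?_, ?_⟩, fun x => ?_⟩
    · refine hT.cont.comp (continuous_pi fun i => ?_)
      fin_cases i <;> simp <;> fun_prop
    · refine supp2 (c := c) fun z hz => ?_
      exact ⟨by simpa using hc _ hz 1 (by decide),
        by simpa using hc _ hz 2 (by decide)⟩
    · refine (hT.cont.comp (continuous_pi fun i => ?_)).div_const _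
      fin_cases i <;> simp <;> fun_prop
    · refine supp1 (c := c) fun t ht => ?_
      have h1 : F ![a 0, a 1, a 2, t] ≠ 0 := fun h0 => ht (by simp [h0])
      simpa using hc _ h1 3 (by decide)
    · have h1 : F x * F a = F ![a 0, a 1, a 2, x 3] * F ![x 0, x 1, x 2, a 3] := by
        refine splits_rank hS ?_ ?_ ?_ ?_ <;> intro j hj <;> fin_cases j <;> simp at hj ⊢
      have h2 : F ![x 0, x 1, x 2, a 3] = F ![a 0, x 1, x 2, a 3] := by
        refine hT.ind _ _ fun j hj => ?_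
        fin_cases j <;> simp at hj ⊢
      rw [h2] at h1
      simp only
      rw [← mul_div_assoc, mul_comm (F ![a 0, x 1, x 2, a 3]), ← h1, mul_div_assoc, div_self ha,
        mul_one]
  · push Not at h
    exact ⟨_, _, gp0, fun x => by simp [h x]⟩

theorem facA1 {F : R4 → ℝ} (hT : Tst 1 F) (hS : Splits {3} F) :
    ∃ (p : ℝ × ℝ → ℝ) (r : ℝ → ℝ), GP p r ∧ ∀ x, F x = p (x 2, x 0) * r (x 3) := by
  by_cases h : ∃ a, F a ≠ 0
  · obtain ⟨a, ha⟩ := h
    obtain ⟨c, hc⟩ := hT.bdd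
    refine ⟨fun z => F ![z.2, a 1, z.1, a 3], fun t => F ![a 0, a 1, a 2, t] / F a, ⟨?_, ?_, ?_, ?_⟩, fun x => ?_⟩
    · refine hT.cont.comp (continuous_pi fun i => ?_)
      fin_cases i <;> simp <;> fun_prop
    · refine supp2 (c := c) fun z hz => ?_
      exact ⟨by simpa using hc _ hz 2 (by decide),
        by simpa using hc _ hz 0 (by decide)⟩
    · refine (hT.cont.comp (continuous_pi fun i => ?_)).div_const _
      fin_cases i <;> simp <;> fun_prop
    · refine supp1 (c := c) fun t ht => ?_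
      have h1 : F ![a 0, a 1, a 2, t] ≠ 0 := fun h0 => ht (by simp [h0])
      simpa using hc _ h1 3 (by decide)
    · have h1 : F x * F a = F ![a 0, a 1, a 2, x 3] * F ![x 0, x 1, x 2, a 3] := by
        refine splits_rank hS ?_ ?_ ?_ ?_ <;> intro j hj <;> fin_cases j <;> simp at hj ⊢
      have h2 : F ![x 0, x 1, x 2, a 3] = F ![x 0, a 1, x 2, a 3] := by
        refine hT.ind _ _ fun j hj => ?_
        fin_cases j <;> simp at hj ⊢
      rw [h2] at h1
      simp only
      rw [← mul_div_assoc, mul_comm (F ![x 0, a 1, x 2, a 3]), ← h1, mul_div_assoc, div_self ha,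
        mul_one]
  · push Not at h
    exact ⟨_, _, gp0, fun x => by simp [h x]⟩

theorem facA2 {F : R4 → ℝ} (hT : Tst 2 F) (hS : Splits {3} F) :
    ∃ (p : ℝ × ℝ → ℝ) (r : ℝ → ℝ), GP p r ∧ ∀ x, F x = p (x 0, x 1) * r (x 3) := by
  by_cases h : ∃ a, F a ≠ 0
  · obtain ⟨a, ha⟩ := h
    obtain ⟨c, hc⟩ := hT.bdd
    refine ⟨fun z => F ![z.1, z.2, a 2, a 3], fun t => F ![a 0, a 1, a 2, t] / F a, ⟨?_, ?_, ?_, ?_⟩, fun x => ?_⟩
    · refine hT.cont.comp (continuous_pi fun i => ?_)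
      fin_cases i <;> simp <;> fun_prop
    · refine supp2 (c := c) fun z hz => ?_
      exact ⟨by simpa using hc _ hz 0 (by decide),
        by simpa using hc _ hz 1 (by decide)⟩
    · refine (hT.cont.comp (continuous_pi fun i => ?_)).div_const _
      fin_cases i <;> simp <;> fun_prop
    · refine supp1 (c := c) fun t ht => ?_
      have h1 : F ![a 0, a 1, a 2, t] ≠ 0 := fun h0 => ht (by simp [h0])
      simpa using hc _ h1 3 (by decide)
    · have h1 : F x * F a = F ![a 0, a 1, a 2, x 3] * F ![x 0, x 1, x 2, a 3] := by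
        refine splits_rank hS ?_ ?_ ?_ ?_ <;> intro j hj <;> fin_cases j <;> simp at hj ⊢
      have h2 : F ![x 0, x 1, x 2, a 3] = F ![x 0, x 1, a 2, a 3] := by
        refine hT.ind _ _ fun j hj => ?_
        fin_cases j <;> simp at hj ⊢
      rw [h2] at h1
      simp only
      rw [← mul_div_assoc, mul_comm (F ![x 0, x 1, a 2, a 3]), ← h1, mul_div_assoc, div_self ha,
        mul_one]
  · push Not at h
    exact ⟨_, _, gp0, fun x => by simp [h x]⟩

def s4a : Equiv.Perm (Fin 4) := ⟨![3, 0, 1, 2], ![1, 2, 3, 0], by decide, by decide⟩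

def s4b : Equiv.Perm (Fin 4) := ⟨![1, 3, 0, 2], ![2, 0, 3, 1], by decide, by decide⟩

theorem nA0 {F : R4 → ℝ} {p : ℝ × ℝ → ℝ} {r : ℝ → ℝ} (h : ∀ x, F x = p (x 1, x 2) * r (x 3)) :
    n4 0 F = (∫ z, p z ^ 4) * ∫ t, r t ^ 4 := by
  have e := n4_3 (F := fun x => p (x 0, x 1) * r (x 2)) (p := p) (r := r) fun _ => rfl
  rw [← e]
  unfold n4
  rw [intperm s4a]
  refine integral_congr_ae (Eventually.of_forall fun x => ?_)
  simp only [h]
  rfl

theorem nA1 {F : R4 → ℝ} {p : ℝ × ℝ → ℝ} {r : ℝ → ℝ} (h : ∀ x, F x = p (x 2, x 0) * r (x 3)) :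
    n4 1 F = (∫ z, p z ^ 4) * ∫ t, r t ^ 4 := by
  have e := n4_3 (F := fun x => p (x 0, x 1) * r (x 2)) (p := p) (r := r) fun _ => rfl
  rw [← e]
  unfold n4
  rw [intperm s4b]
  refine integral_congr_ae (Eventually.of_forall fun x => ?_)
  simp only [h]
  rfl

end Pool.Agent.Lib.MP_5ef378_an.SH31
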