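import Pool.Agent.Lib.MP_5ef378_an.L4b17

/-!
# L4 bound of the truncated Hilbert transform, final part (seat 17)
-/

open MeasureTheory Set Filter Topology

namespace SH17

noncomputable section

variable {b : ℝ → ℝ}

/-- conjugate Poisson integral -/
def X (b : ℝ → ℝ) (d u : ℝ) : ℝ := ∫ v, Q d (u + v) * b v

/-- Poisson integral -/
def Y (b : ℝ → ℝ) (d u : ℝ) : ℝ := ∫ v, P d (u + v) * b v

lemma nsq (d u v : ℝ) : Complex.normSq (ln d u + (v : ℂ)) = (u + v) ^ 2 + d ^ 2 := by
  rw [Complex.normSq_apply]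
  simp only [Complex.add_re, Complex.add_im, ln_re, ln_im, Complex.ofReal_re, Complex.ofReal_im]
  ring

lemma Fl_re (hb : Continuous b) (hbc : HasCompactSupport b) {d : ℝ} (hd : 0 < d) (u : ℝ) :
    (Fc b (ln d u)).re = X b d u := by
  have h := integrand_int hb hbc (z := ln d u) (by rw [ln_im]; exact hd)
  have h2 := Complex.reCLM.integral_comp_comm h
  rw [Complex.reCLM_apply] at h2
  unfold Fc X
  rw [← h2]
  refine integral_congr_ae (Eventually.of_forall fun v => ?_)
  simp only [Complex.reCLM_apply]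
  rw [Complex.div_re, nsq]
  simp only [Complex.add_re, Complex.add_im, ln_re, ln_im, Complex.ofReal_re, Complex.ofReal_im]
  unfold Q
  ring

lemma Fl_im (hb : Continuous b) (hbc : HasCompactSupport b) {d : ℝ} (hd : 0 < d) (u : ℝ) :
    (Fc b (ln d u)).im = - Y b d u := by
  have h := integrand_int hb hbc (z := ln d u) (by rw [ln_im]; exact hd)
  have h2 := Complex.imCLM.integral_comp_comm h
  rw [Complex.imCLM_apply] at h2
  unfold Fc Y
  rw [← h2, ← integral_neg]
  refine integral_congr_ae (Eventually.of_forall fun v => ?_)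
  simp only [Complex.imCLM_apply]
  rw [Complex.div_im, nsq]
  simp only [Complex.add_re, Complex.add_im, ln_re, ln_im, Complex.ofReal_re, Complex.ofReal_im]
  unfold P
  ring

lemma X_cont (hb : Continuous b) (hbc : HasCompactSupport b) {d : ℝ} (hd : 0 < d) :
    Continuous (X b d) := by
  have := Complex.continuous_re.comp (Fl_cont hb hbc hd)
  refine this.congr fun u => ?_
  exact Fl_re hb hbc hd u

lemma Y_cont (hb : Continuous b) (hbc : HasCompactSupport b) {d : ℝ} (hd : 0 < d) :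
    Continuous (Y b d) := by
  have := (Complex.continuous_im.comp (Fl_cont hb hbc hd)).neg
  refine this.congr fun u => ?_
  show -(Fc b (ln d u)).im = Y b d u
  rw [Fl_im hb hbc hd u, neg_neg]

lemma pow4 (z : ℂ) : (z ^ 4).re = z.re ^ 4 - 6 * z.re ^ 2 * z.im ^ 2 + z.im ^ 4 := by
  simp only [pow_succ, pow_zero, one_mul, Complex.mul_re, Complex.mul_im]
  ring

lemma X4_int (hb : Continuous b) (hbc : HasCompactSupport b) {d : ℝ} (hd : 0 < d) :
    Integrable fun u => X b d u ^ 4 := by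
  refine (Fl_int hb hbc hd).norm.mono' ((X_cont hb hbc hd).pow 4).aestronglyMeasurable
    (Eventually.of_forall fun u => ?_)
  rw [norm_pow, norm_pow, ← Fl_re hb hbc hd u]
  exact pow_le_pow_left₀ (norm_nonneg _) (Complex.abs_re_le_norm _) 4

lemma Y4_int (hb : Continuous b) (hbc : HasCompactSupport b) {d : ℝ} (hd : 0 < d) :
    Integrable fun u => Y b d u ^ 4 := by
  refine (Fl_int hb hbc hd).norm.mono' ((Y_cont hb hbc hd).pow 4).aestronglyMeasurable
    (Eventually.of_forall fun u => ?_)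
  have h : Y b d u = - (Fc b (ln d u)).im := by rw [Fl_im hb hbc hd u, neg_neg]
  rw [norm_pow, norm_pow, h, norm_neg]
  exact pow_le_pow_left₀ (norm_nonneg _) (Complex.abs_im_le_norm _) 4

lemma X4_le (hb : Continuous b) (hbc : HasCompactSupport b) {d : ℝ} (hd : 0 < d) :
    ∫ u, X b d u ^ 4 ≤ 34 * ∫ u, Y b d u ^ 4 := by
  have h0 := Fl_zero hb hbc hd
  have h1 := Complex.reCLM.integral_comp_comm (Fl_int hb hbc hd)
  rw [h0] at h1
  simp only [Complex.reCLM_apply, Complex.zero_re] at h1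
  have hre : Integrable fun u => (Fc b (ln d u) ^ 4).re := (Fl_int hb hbc hd).re
  have hle : ∫ u, X b d u ^ 4 ≤ ∫ u, (2 * (Fc b (ln d u) ^ 4).re + 34 * Y b d u ^ 4) := by
    refine integral_mono (X4_int hb hbc hd)
      ((hre.const_mul 2).add ((Y4_int hb hbc hd).const_mul 34)) fun u => ?_
    simp only
    rw [pow4, Fl_re hb hbc hd u, Fl_im hb hbc hd u]
    nlinarith [sq_nonneg (X b d u ^ 2 - 6 * Y b d u ^ 2)]
  rw [integral_add (hre.const_mul 2) ((Y4_int hb hbc hd).const_mul 34), integral_const_mul,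
    integral_const_mul, h1, mul_zero, zero_add] at hle
  exact hle

lemma abs4 (x : ℝ) : |x| ^ 4 = x ^ 4 := by
  have h1 : |x| ^ 4 = (|x| ^ 2) ^ 2 := by ring
  rw [h1, sq_abs]; ring

lemma Y4_le (hb : Continuous b) (hbc : HasCompactSupport b) {d : ℝ} (hd : 0 < d) :
    ∫ u, Y b d u ^ 4 ≤ Real.pi ^ 4 * ∫ v, b v ^ 4 := by
  have hc4 : HasCompactSupport fun v => b v ^ 4 :=
    hbc.comp_left (g := fun x : ℝ => x ^ 4) (by norm_num)
  have hcont : Continuous fun v => b v ^ 4 := by fun_prop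
  have hb4 : Integrable fun v => b v ^ 4 := hcont.integrable_of_hasCompactSupport hc4
  have hf := fub hd hb4
  have hle : ∫ u, Y b d u ^ 4 ≤ ∫ u, Real.pi ^ 3 * ∫ v, P d (u + v) * b v ^ 4 := by
    refine integral_mono (Y4_int hb hbc hd) (hf.1.const_mul _) fun u => ?_
    simp only
    refine le_trans ?_ (jensen hd hb hbc u)
    rw [← abs4 (Y b d u)]
    refine pow_le_pow_left₀ (abs_nonneg _) ?_ 4
    unfold Y
    refine (abs_integral_le_integral_abs).trans (le_of_eq ?_)
    refine integral_congr_ae (Eventually.of_forall fun v => ?_)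
    simp only
    rw [abs_mul, abs_of_nonneg (P_nonneg hd _)]
  rw [integral_const_mul, hf.2] at hle
  calc _ ≤ _ := hle
    _ = _ := by ring

lemma holder {A W : ℝ → ℝ} (hA : Continuous A) (hAc : HasCompactSupport A) (hW : Continuous W)
    (hWi : Integrable fun u => W u ^ 4) :
    ∫ u, |A u| * |W u| ≤ (∫ u, |A u| ^ (4 / 3 : ℝ)) ^ (3 / 4 : ℝ) *
      (∫ u, W u ^ 4) ^ (1 / 4 : ℝ) := by
  have hpq : Real.HolderConjugate (4 / 3 : ℝ) 4 := by
    rw [Real.holderConjugate_iff]; norm_num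
  have mA : MemLp (fun u => |A u|) (ENNReal.ofReal (4 / 3)) :=
    hA.abs.memLp_of_hasCompactSupport (hAc.comp_left (g := fun x : ℝ => |x|) abs_zero)
  have e4 : ∀ u, |W u| ^ (4 : ℝ) = W u ^ 4 := by
    intro u
    rw [show (4 : ℝ) = ((4 : ℕ) : ℝ) by norm_num, Real.rpow_natCast, abs4]
  have mW : MemLp (fun u => |W u|) (ENNReal.ofReal 4) := by
    rw [← integrable_norm_rpow_iff hW.abs.aestronglyMeasurable (by simp) (by simp)]
    refine hWi.congr (Eventually.of_forall fun u => ?_)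
    simp only
    rw [ENNReal.toReal_ofReal (by norm_num), Real.norm_eq_abs, abs_abs, e4]
  have h := integral_mul_le_Lp_mul_Lq_of_nonneg hpq
    (Eventually.of_forall fun u => abs_nonneg (A u)) (Eventually.of_forall fun u => abs_nonneg (W u))
    mA mW
  simp_rw [e4] at h
  rw [show (1 / (4 / 3) : ℝ) = 3 / 4 by norm_num] at h
  exact h

lemma rp {c I : ℝ} (hc : 0 ≤ c) (hI : 0 ≤ I) : (c ^ 4 * I) ^ (1 / 4 : ℝ) = c * I ^ (1 / 4 : ℝ) := by
  rw [Real.mul_rpow (by positivity) hI]
  congr 1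
  rw [show (1 / 4 : ℝ) = ((4 : ℕ) : ℝ)⁻¹ by norm_num]
  exact Real.pow_rpow_inv_natCast hc (by norm_num)

/-- a weight against the conjugate Poisson integral -/
lemma AX {A B : ℝ → ℝ} (hA : Continuous A) (hAc : HasCompactSupport A) (hB : Continuous B)
    (hBc : HasCompactSupport B) {d : ℝ} (hd : 0 < d) :
    ∫ u, |A u| * |X B d u| ≤ Real.sqrt 6 * Real.pi * (∫ u, |A u| ^ (4 / 3 : ℝ)) ^ (3 / 4 : ℝ) *
      (∫ v, B v ^ 4) ^ (1 / 4 : ℝ) := by
  have h1 := holder hA hAc (X_cont hB hBc hd) (X4_int hB hBc hd)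
  have hB0 : 0 ≤ ∫ v, B v ^ 4 := integral_nonneg fun v => by positivity
  have hX0 : 0 ≤ ∫ v, X B d v ^ 4 := integral_nonneg fun v => by positivity
  have h6 : Real.sqrt 6 ^ 4 = 36 := by
    have : Real.sqrt 6 ^ 4 = (Real.sqrt 6 ^ 2) ^ 2 := by ring
    rw [this, Real.sq_sqrt (by norm_num)]; norm_num
  have h2 : ∫ v, X B d v ^ 4 ≤ (Real.sqrt 6 * Real.pi) ^ 4 * ∫ v, B v ^ 4 := by
    rw [mul_pow, h6]
    have a1 := X4_le hB hBc hd
    have a2 := Y4_le hB hBc hd
    have : 0 ≤ Real.pi ^ 4 * ∫ v, B v ^ 4 := by positivity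
    nlinarith
  have h3 : (∫ v, X B d v ^ 4) ^ (1 / 4 : ℝ) ≤ Real.sqrt 6 * Real.pi *
      (∫ v, B v ^ 4) ^ (1 / 4 : ℝ) := by
    rw [← rp (by positivity) hB0]
    exact Real.rpow_le_rpow hX0 h2 (by norm_num)
  have hA0 : 0 ≤ (∫ u, |A u| ^ (4 / 3 : ℝ)) ^ (3 / 4 : ℝ) :=
    Real.rpow_nonneg (integral_nonneg fun u => Real.rpow_nonneg (abs_nonneg _) _) _
  calc _ ≤ _ := h1
    _ ≤ (∫ u, |A u| ^ (4 / 3 : ℝ)) ^ (3 / 4 : ℝ) *
        (Real.sqrt 6 * Real.pi * (∫ v, B v ^ 4) ^ (1 / 4 : ℝ)) :=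
        mul_le_mul_of_nonneg_left h3 hA0
    _ = _ := by ring

/-- a weight against the Poisson integral -/
lemma AY {A B : ℝ → ℝ} (hA : Continuous A) (hAc : HasCompactSupport A) (hB : Continuous B)
    (hBc : HasCompactSupport B) {d : ℝ} (hd : 0 < d) :
    ∫ u, |A u| * |Y B d u| ≤ Real.pi * (∫ u, |A u| ^ (4 / 3 : ℝ)) ^ (3 / 4 : ℝ) *
      (∫ v, B v ^ 4) ^ (1 / 4 : ℝ) := by
  have h1 := holder hA hAc (Y_cont hB hBc hd) (Y4_int hB hBc hd)
  have hB0 : 0 ≤ ∫ v, B v ^ 4 := integral_nonneg fun v => by positivity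
  have hX0 : 0 ≤ ∫ v, Y B d v ^ 4 := integral_nonneg fun v => by positivity
  have h3 : (∫ v, Y B d v ^ 4) ^ (1 / 4 : ℝ) ≤ Real.pi * (∫ v, B v ^ 4) ^ (1 / 4 : ℝ) := by
    rw [← rp Real.pi_pos.le hB0]
    exact Real.rpow_le_rpow hX0 (Y4_le hB hBc hd) (by norm_num)
  have hA0 : 0 ≤ (∫ u, |A u| ^ (4 / 3 : ℝ)) ^ (3 / 4 : ℝ) :=
    Real.rpow_nonneg (integral_nonneg fun u => Real.rpow_nonneg (abs_nonneg _) _) _
  calc _ ≤ _ := h1
    _ ≤ (∫ u, |A u| ^ (4 / 3 : ℝ)) ^ (3 / 4 : ℝ) *
        (Real.pi * (∫ v, B v ^ 4) ^ (1 / 4 : ℝ)) :=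
        mul_le_mul_of_nonneg_left h3 hA0
    _ = _ := by ring

lemma trK_meas (e N : ℝ) : Measurable (trK e N) := by
  unfold trK
  have ha : Measurable fun t : ℝ => |t| := continuous_abs.measurable
  refine Measurable.ite ?_ (by fun_prop) measurable_const
  exact (measurableSet_lt measurable_const ha).inter (measurableSet_lt ha measurable_const)

lemma trK_bdd {e N : ℝ} (he : 0 < e) (t : ℝ) : |trK e N t| ≤ 1 / e := by
  unfold trK
  split_ifs with h
  · rw [abs_div, abs_one]
    exact one_div_le_one_div_of_le he h.1.le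
  · rw [abs_zero]; positivity

/-- pointwise bound of the truncated transform -/
lemma T_le {e N : ℝ} (he : 0 < e) (hN : e < N) {B : ℝ → ℝ} (hB : Continuous B)
    (hBc : HasCompactSupport B) (u : ℝ) :
    |∫ v, trK e N (u + v) * B v| ≤ |X B e u| + |X B N u| + |Y (fun v => |B v|) e u| +
      |Y (fun v => |B v|) N u| := by
  have hN0 : 0 < N := he.trans hN
  have hBi : Integrable B := hB.integrable_of_hasCompactSupport hBc
  have iT : Integrable fun v => trK e N (u + v) * B v := by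
    refine hBi.bdd_mul (c := 1 / e) ?_ ?_
    · exact ((trK_meas e N).comp (measurable_const_add u)).aestronglyMeasurable
    · exact Eventually.of_forall fun v => by
        rw [Real.norm_eq_abs]; exact trK_bdd he _
  have iQ : ∀ {d : ℝ}, 0 < d → Integrable fun v => Q d (u + v) * B v := fun hd =>
    (((Q_cont hd).comp (continuous_const_add u)).mul hB).integrable_of_hasCompactSupport
      hBc.mul_left
  have iP : ∀ {d : ℝ}, 0 < d → Integrable fun v => P d (u + v) * |B v| := fun hd =>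
    (((P_cont hd).comp (continuous_const_add u)).mul hB.abs).integrable_of_hasCompactSupport
      (hBc.comp_left (g := fun x : ℝ => |x|) abs_zero).mul_left
  have h1 : (∫ v, trK e N (u + v) * B v) - (X B e u - X B N u) =
      ∫ v, (trK e N (u + v) - (Q e (u + v) - Q N (u + v))) * B v := by
    have hs : X B e u - X B N u = ∫ v, (Q e (u + v) * B v - Q N (u + v) * B v) :=
      (integral_sub (iQ he) (iQ hN0)).symm
    rw [hs, ← integral_sub iT (show Integrable (fun v => Q e (u + v) * B v - Q N (u + v) * B v)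
      from (iQ he).sub (iQ hN0))]
    refine integral_congr_ae (Eventually.of_forall fun v => ?_)
    simp only
    ring
  have h2 : |∫ v, (trK e N (u + v) - (Q e (u + v) - Q N (u + v))) * B v| ≤
      ∫ v, (P e (u + v) * |B v| + P N (u + v) * |B v|) := by
    rw [← Real.norm_eq_abs]
    refine norm_integral_le_of_norm_le ((iP he).add (iP hN0)) (Eventually.of_forall fun v => ?_)
    rw [Real.norm_eq_abs, abs_mul, ← add_mul]
    exact mul_le_mul_of_nonneg_right (trK_sub he hN _) (abs_nonneg _)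
  rw [integral_add (iP he) (iP hN0), ← h1] at h2
  have h3 : (∫ v, trK e N (u + v) * B v) =
      ((∫ v, trK e N (u + v) * B v) - (X B e u - X B N u)) + (X B e u + - X B N u) := by ring
  rw [h3]
  refine (abs_add_le _ _).trans ?_
  have h4 := abs_add_le (X B e u) (- X B N u)
  rw [abs_neg] at h4
  have h5 : (∫ v, P e (u + v) * |B v|) ≤ |Y (fun v => |B v|) e u| := le_abs_self _
  have h6 : (∫ v, P N (u + v) * |B v|) ≤ |Y (fun v => |B v|) N u| := le_abs_self _
  linarith

/-- **L4 bound of the truncated Hilbert form.** -/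
theorem form_l4 {e N : ℝ} (he : 0 < e) (hN : e < N) {A B : ℝ → ℝ} (hA : Continuous A)
    (hAc : HasCompactSupport A) (hB : Continuous B) (hBc : HasCompactSupport B) :
    |∫ u, ∫ v, trK e N (u + v) * A u * B v| ≤ (2 * Real.sqrt 6 * Real.pi + 2 * Real.pi) *
      (∫ u, |A u| ^ (4 / 3 : ℝ)) ^ (3 / 4 : ℝ) * (∫ v, |B v| ^ 4) ^ (1 / 4 : ℝ) := by
  have hN0 : 0 < N := he.trans hN
  have hBa : Continuous fun v => |B v| := hB.abs
  have hBac : HasCompactSupport fun v => |B v| :=
    hBc.comp_left (g := fun x : ℝ => |x|) abs_zero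
  have e1 : ∀ u, ∫ v, trK e N (u + v) * A u * B v = A u * ∫ v, trK e N (u + v) * B v := by
    intro u
    rw [← integral_const_mul]
    refine integral_congr_ae (Eventually.of_forall fun v => ?_)
    simp only
    ring
  simp_rw [e1]
  have iA : ∀ {W : ℝ → ℝ}, Continuous W → Integrable fun u => |A u| * |W u| := fun hW =>
    (hA.abs.mul hW.abs).integrable_of_hasCompactSupport
      (hAc.comp_left (g := fun x : ℝ => |x|) abs_zero).mul_right
  have i1 := iA (X_cont hB hBc he)
  have i2 := iA (X_cont hB hBc hN0)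
  have i3 := iA (Y_cont hBa hBac he)
  have i4 := iA (Y_cont hBa hBac hN0)
  have hle : |∫ u, A u * ∫ v, trK e N (u + v) * B v| ≤ ∫ u, (|A u| * |X B e u| +
      |A u| * |X B N u| + |A u| * |Y (fun v => |B v|) e u| +
      |A u| * |Y (fun v => |B v|) N u|) := by
    rw [← Real.norm_eq_abs]
    refine norm_integral_le_of_norm_le (((i1.add i2).add i3).add i4)
      (Eventually.of_forall fun u => ?_)
    rw [Real.norm_eq_abs, abs_mul]
    calc |A u| * |∫ v, trK e N (u + v) * B v| ≤ |A u| * (|X B e u| + |X B N u| +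
          |Y (fun v => |B v|) e u| + |Y (fun v => |B v|) N u|) :=
          mul_le_mul_of_nonneg_left (T_le he hN hB hBc u) (abs_nonneg _)
      _ = _ := by ring
  have s1 : ∫ u, (|A u| * |X B e u| + |A u| * |X B N u| + |A u| * |Y (fun v => |B v|) e u| +
      |A u| * |Y (fun v => |B v|) N u|) = (∫ u, (|A u| * |X B e u| + |A u| * |X B N u| +
      |A u| * |Y (fun v => |B v|) e u|)) + ∫ u, |A u| * |Y (fun v => |B v|) N u| :=
    integral_add ((i1.add i2).add i3) i4
  have s2 : ∫ u, (|A u| * |X B e u| + |A u| * |X B N u| + |A u| * |Y (fun v => |B v|) e u|) =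
      (∫ u, (|A u| * |X B e u| + |A u| * |X B N u|)) + ∫ u, |A u| * |Y (fun v => |B v|) e u| :=
    integral_add (i1.add i2) i3
  have s3 : ∫ u, (|A u| * |X B e u| + |A u| * |X B N u|) =
      (∫ u, |A u| * |X B e u|) + ∫ u, |A u| * |X B N u| := integral_add i1 i2
  rw [s1, s2, s3] at hle
  have b1 := AX hA hAc hB hBc he
  have b2 := AX hA hAc hB hBc hN0
  have b3 := AY hA hAc hBa hBac he
  have b4 := AY hA hAc hBa hBac hN0
  simp_rw [abs4] at b3 b4 ⊢
  linarith

end

end SH17
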