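import Mathlib

/-!
# L4 bound of the truncated Hilbert transform, part one (seat 17)

Poisson kernel, the pointwise comparison of the truncated kernel, the Cauchy integral
of a compactly supported function.
-/

open MeasureTheory Set Filter Topology

namespace SH17

noncomputable section

/-- the truncated kernel -/
def trK (e N t : ℝ) : ℝ := if e < |t| ∧ |t| < N then 1 / t else 0

/-- the Poisson kernel -/
def P (d t : ℝ) : ℝ := d / (t ^ 2 + d ^ 2)

/-- the conjugate Poisson kernel -/
def Q (d t : ℝ) : ℝ := t / (t ^ 2 + d ^ 2)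

lemma den_pos {d : ℝ} (hd : 0 < d) (t : ℝ) : 0 < t ^ 2 + d ^ 2 := by positivity

lemma P_nonneg {d : ℝ} (hd : 0 < d) (t : ℝ) : 0 ≤ P d t := by
  unfold P; positivity

lemma P_le {d : ℝ} (hd : 0 < d) (t : ℝ) : P d t ≤ 1 / d := by
  unfold P
  rw [div_le_div_iff₀ (den_pos hd t) hd]
  nlinarith [sq_nonneg t]

lemma P_cont {d : ℝ} (hd : 0 < d) : Continuous (P d) := by
  unfold P
  exact continuous_const.div (by fun_prop) (fun t => (den_pos hd t).ne')

lemma Q_cont {d : ℝ} (hd : 0 < d) : Continuous (Q d) := by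
  unfold Q
  exact continuous_id.div (by fun_prop) (fun t => (den_pos hd t).ne')

lemma P_eq {d : ℝ} (hd : 0 < d) (t : ℝ) : P d t = d⁻¹ * (1 + (d⁻¹ * t) ^ 2)⁻¹ := by
  unfold P
  have h := (den_pos hd t).ne'
  field_simp
  ring

lemma P_int {d : ℝ} (hd : 0 < d) : Integrable (P d) := by
  have h := (integrable_inv_one_add_sq.comp_mul_left' (inv_ne_zero hd.ne')).const_mul d⁻¹
  refine h.congr (Eventually.of_forall fun t => ?_)
  simp only
  rw [P_eq hd]

lemma P_integral {d : ℝ} (hd : 0 < d) : ∫ t, P d t = Real.pi := by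
  have h1 : (fun t => P d t) = fun t => d⁻¹ * (1 + (d⁻¹ * t) ^ 2)⁻¹ := by
    funext t; exact P_eq hd t
  rw [h1, integral_const_mul]
  have h2 := Measure.integral_comp_mul_left (fun x : ℝ => (1 + x ^ 2)⁻¹) d⁻¹
  rw [h2, integral_univ_inv_one_add_sq]
  rw [inv_inv, abs_of_pos hd, smul_eq_mul]
  field_simp

/-- The comparison of the kernels. -/
lemma trK_sub {e N : ℝ} (he : 0 < e) (hN : e < N) (t : ℝ) :
    |trK e N t - (Q e t - Q N t)| ≤ P e t + P N t := by
  have hN0 : 0 < N := he.trans hN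
  have h1 := den_pos he t
  have h2 := den_pos hN0 t
  have habs : |t| ^ 2 = t ^ 2 := sq_abs t
  by_cases hc : e < |t| ∧ |t| < N
  · have ht : t ≠ 0 := by
      intro h; rw [h, abs_zero] at hc; linarith [hc.1]
    have h3 : |1 / t - Q e t| ≤ P e t := by
      have : 1 / t - Q e t = e ^ 2 / (t * (t ^ 2 + e ^ 2)) := by
        unfold Q; field_simp; ring
      rw [this, abs_div, abs_mul, abs_of_pos h1, abs_of_nonneg (sq_nonneg e)]
      unfold P
      rw [div_le_div_iff₀ (mul_pos (abs_pos.2 ht) h1) h1]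
      have := hc.1
      have h4 : e ^ 2 ≤ e * |t| := by nlinarith
      nlinarith [mul_le_mul_of_nonneg_right h4 h1.le]
    have h5 : |Q N t| ≤ P N t := by
      unfold Q P
      rw [abs_div, abs_of_pos h2]
      exact div_le_div_of_nonneg_right hc.2.le h2.le
    unfold trK
    rw [if_pos hc]
    have : 1 / t - (Q e t - Q N t) = (1 / t - Q e t) + Q N t := by ring
    rw [this]
    exact (abs_add_le _ _).trans (add_le_add h3 h5)
  · unfold trK
    rw [if_neg hc, zero_sub, abs_neg]
    have hq : Q e t - Q N t = t * (N ^ 2 - e ^ 2) / ((t ^ 2 + e ^ 2) * (t ^ 2 + N ^ 2)) := by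
      unfold Q
      rw [div_sub_div _ _ h1.ne' h2.ne']
      congr 1; ring
    have hp : P e t + P N t = (e * (t ^ 2 + N ^ 2) + N * (t ^ 2 + e ^ 2)) /
        ((t ^ 2 + e ^ 2) * (t ^ 2 + N ^ 2)) := by
      unfold P
      rw [div_add_div _ _ h1.ne' h2.ne']
      congr 1; ring
    rw [hq, hp, abs_div, abs_of_pos (mul_pos h1 h2), abs_mul,
      abs_of_nonneg (by nlinarith : 0 ≤ N ^ 2 - e ^ 2)]
    refine div_le_div_of_nonneg_right ?_ (mul_pos h1 h2).le
    rw [← habs]
    have hT : 0 ≤ |t| := abs_nonneg t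
    generalize |t| = T at *
    rw [not_and_or, not_lt, not_lt] at hc
    have key : 0 ≤ T ^ 2 - T * (N - e) + e * N := by
      rcases hc with h | h
      · nlinarith [mul_nonneg hT (sub_nonneg.2 h), mul_nonneg hN0.le (sub_nonneg.2 h), mul_nonneg hT he.le]
      · nlinarith [mul_nonneg (sub_nonneg.2 h) (add_nonneg hT he.le), mul_pos he hN0]
    nlinarith [mul_nonneg (add_pos he hN0).le key]

/-- `int P(u+v) b(v)^4` dominates. -/
lemma jensen {d : ℝ} (hd : 0 < d) {b : ℝ → ℝ} (hb : Continuous b) (hbc : HasCompactSupport b)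
    (u : ℝ) : (∫ v, P d (u + v) * |b v|) ^ 4 ≤ Real.pi ^ 3 * ∫ v, P d (u + v) * b v ^ 4 := by
  have hPc : Continuous fun v => P d (u + v) := (P_cont hd).comp (by fun_prop)
  have hPi : Integrable fun v => P d (u + v) := (P_int hd).comp_add_left u
  have hPI : ∫ v, P d (u + v) = Real.pi := by
    rw [integral_add_left_eq_self (fun t => P d t) u, P_integral hd]
  have hb1 : HasCompactSupport fun v => P d (u + v) * |b v| :=
    (hbc.comp_left (g := fun x : ℝ => |x|) abs_zero).mul_left
  have hb4 : HasCompactSupport fun v => P d (u + v) * b v ^ 4 :=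
    (hbc.comp_left (g := fun x : ℝ => x ^ 4) (by norm_num)).mul_left
  have i1 : Integrable fun v => P d (u + v) * |b v| :=
    (hPc.mul hb.abs).integrable_of_hasCompactSupport hb1
  have i4 : Integrable fun v => P d (u + v) * b v ^ 4 :=
    (hPc.mul (hb.pow 4)).integrable_of_hasCompactSupport hb4
  set G := ∫ v, P d (u + v) * |b v| with hG
  have hG0 : 0 ≤ G := integral_nonneg fun v => mul_nonneg (P_nonneg hd _) (abs_nonneg _)
  set m := G / Real.pi with hm
  have hpi := Real.pi_pos
  have hGm : G = Real.pi * m := by rw [hm]; field_simp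
  have hm0 : 0 ≤ m := div_nonneg hG0 hpi.le
  have hle : ∫ v, (4 * m ^ 3 * (P d (u + v) * |b v|) - 3 * m ^ 4 * P d (u + v)) ≤
      ∫ v, P d (u + v) * b v ^ 4 := by
    refine integral_mono ((i1.const_mul _).sub (hPi.const_mul _)) i4 fun v => ?_
    have hb4' : b v ^ 4 = |b v| ^ 4 := by
      rw [show (4 : ℕ) = 2 * 2 from rfl, pow_mul, pow_mul, sq_abs]
    simp only
    rw [hb4']
    have h0 := P_nonneg hd (u + v)
    have ha := abs_nonneg (b v)
    generalize |b v| = x at *
    have : 0 ≤ x ^ 4 - 4 * m ^ 3 * x + 3 * m ^ 4 := by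
      have : x ^ 4 - 4 * m ^ 3 * x + 3 * m ^ 4 = (x - m) ^ 2 * (x ^ 2 + 2 * x * m + 3 * m ^ 2) := by
        ring
      rw [this]; positivity
    nlinarith [mul_nonneg h0 this]
  rw [integral_sub (i1.const_mul _) (hPi.const_mul _), integral_const_mul, integral_const_mul,
    hPI, ← hG] at hle
  calc G ^ 4 = Real.pi ^ 3 * (4 * m ^ 3 * G - 3 * m ^ 4 * Real.pi) := by rw [hGm]; ring
    _ ≤ _ := mul_le_mul_of_nonneg_left hle (by positivity)

/-- Fubini with the Poisson kernel. -/
lemma fub {d : ℝ} (hd : 0 < d) {b : ℝ → ℝ} (hb : Integrable b) :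
    Integrable (fun u => ∫ v, P d (u + v) * b v) ∧
      ∫ u, ∫ v, P d (u + v) * b v = Real.pi * ∫ v, b v := by
  have h0 : Integrable (fun z : ℝ × ℝ => b z.1 * P d z.2) (volume.prod volume) :=
    hb.mul_prod (P_int hd)
  have h1 := (measurePreserving_prod_add_swap (volume : Measure ℝ) (volume : Measure ℝ)
    ).integrable_comp_of_integrable h0
  have h2 : Integrable (fun z : ℝ × ℝ => P d (z.1 + z.2) * b z.2) (volume.prod volume) := by
    refine h1.congr (Eventually.of_forall fun z => ?_)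
    simp only [Function.comp_apply]
    rw [mul_comm, add_comm z.2 z.1]
  refine ⟨h2.integral_prod_left, ?_⟩
  rw [integral_integral_swap (f := fun u v => P d (u + v) * b v) h2]
  have : ∀ v, ∫ u, P d (u + v) * b v = Real.pi * b v := by
    intro v
    rw [integral_mul_const, integral_add_right_eq_self (fun t => P d t) v, P_integral hd]
  simp_rw [this]
  rw [integral_const_mul]

end

end SH17
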