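import Pool.Agent.Lib.MP_5ef378_an.L4a17

/-!
# L4 bound of the truncated Hilbert transform, part two (seat 17)

The Cauchy integral `Fc b z` of a continuous function with compact support: holomorphic,
`O(1/|z|)`, and the fourth power has integral zero along a horizontal line.
-/

open MeasureTheory Set Filter Topology

namespace SH17

noncomputable section

/-- the Cauchy integral -/
def Fc (b : ℝ → ℝ) (z : ℂ) : ℂ := ∫ v : ℝ, (b v : ℂ) / (z + v)

lemma im_le_norm {z : ℂ} (v : ℝ) : z.im ≤ ‖z + v‖ := by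
  have h := Complex.abs_im_le_norm (z + v)
  simp only [Complex.add_im, Complex.ofReal_im, add_zero] at h
  exact (le_abs_self _).trans h

lemma den_ne {z : ℂ} (hz : 0 < z.im) (v : ℝ) : z + (v : ℂ) ≠ 0 := by
  intro h
  have := im_le_norm (z := z) v
  rw [h, norm_zero] at this
  linarith

variable {b : ℝ → ℝ}

lemma integrand_cont (hb : Continuous b) {z : ℂ} (hz : 0 < z.im) :
    Continuous fun v : ℝ => (b v : ℂ) / (z + v) :=
  (Complex.continuous_ofReal.comp hb).div (by fun_prop) (fun v => den_ne hz v)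

lemma ofReal_supp (hbc : HasCompactSupport b) : HasCompactSupport fun v : ℝ => (b v : ℂ) :=
  hbc.comp_left (g := fun x : ℝ => (x : ℂ)) Complex.ofReal_zero

lemma integrand_supp (hbc : HasCompactSupport b) (z : ℂ) :
    HasCompactSupport fun v : ℝ => (b v : ℂ) / (z + v) := by
  have := (ofReal_supp hbc).mul_right (f' := fun v : ℝ => (z + (v : ℂ))⁻¹)
  simp only [div_eq_mul_inv]
  exact this

lemma integrand_int (hb : Continuous b) (hbc : HasCompactSupport b) {z : ℂ} (hz : 0 < z.im) :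
    Integrable fun v : ℝ => (b v : ℂ) / (z + v) :=
  (integrand_cont hb hz).integrable_of_hasCompactSupport (integrand_supp hbc z)

lemma Fc_diff (hb : Continuous b) (hbc : HasCompactSupport b) {z : ℂ} (hz : 0 < z.im) :
    DifferentiableAt ℂ (Fc b) z := by
  have hbi : Integrable b := hb.integrable_of_hasCompactSupport hbc
  have him : ∀ w ∈ Metric.ball z (z.im / 2), z.im / 2 < w.im := by
    intro w hw
    rw [Metric.mem_ball, dist_eq_norm] at hw
    have h := Complex.abs_im_le_norm (w - z)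
    rw [Complex.sub_im] at h
    have := (abs_le.1 (h.trans hw.le)).1
    by_contra hcon
    push Not at hcon
    have h3 : z.im / 2 ≤ |w.im - z.im| := by
      rw [abs_sub_comm]; exact (by linarith : z.im / 2 ≤ z.im - w.im).trans (le_abs_self _)
    linarith
  have key := hasDerivAt_integral_of_dominated_loc_of_deriv_le (μ := (volume : Measure ℝ))
    (F := fun (w : ℂ) (v : ℝ) => (b v : ℂ) / (w + v))
    (F' := fun (w : ℂ) (v : ℝ) => -(b v : ℂ) / (w + v) ^ 2) (x₀ := z)
    (s := Metric.ball z (z.im / 2)) (bound := fun v => |b v| * (4 / z.im ^ 2))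
    (Metric.ball_mem_nhds z (by linarith)) ?_ (integrand_int hb hbc hz) ?_ ?_
    (hbi.abs.mul_const _) ?_
  · exact key.2.differentiableAt
  · filter_upwards [Metric.ball_mem_nhds z (by linarith : (0 : ℝ) < z.im / 2)] with w hw
    exact (integrand_cont hb ((by linarith : 0 < z.im / 2).trans (him w hw))).aestronglyMeasurable
  · refine Continuous.aestronglyMeasurable ?_
    exact (Complex.continuous_ofReal.comp hb).neg.div (by fun_prop)
      (fun v => pow_ne_zero _ (den_ne hz v))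
  · refine Eventually.of_forall fun v w hw => ?_
    have h1 := him w hw
    have h2 : z.im / 2 ≤ ‖w + v‖ := h1.le.trans (im_le_norm v)
    rw [norm_div, norm_neg, norm_pow, Complex.norm_real, Real.norm_eq_abs, div_eq_mul_inv]
    refine mul_le_mul_of_nonneg_left ?_ (abs_nonneg _)
    have h0 : 0 < ‖w + v‖ := (by linarith : 0 < z.im / 2).trans_le h2
    rw [inv_eq_one_div, div_le_div_iff₀ (pow_pos h0 2) (by positivity)]
    nlinarith [mul_self_le_mul_self (by linarith : 0 ≤ z.im / 2) h2]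
  · refine Eventually.of_forall fun v w hw => ?_
    have h1 := him w hw
    have hne := den_ne ((by linarith : 0 < z.im / 2).trans h1) v
    have h3 : HasDerivAt (fun w : ℂ => w + v) 1 w := (hasDerivAt_id w).add_const _
    have h4 := (hasDerivAt_const w (b v : ℂ)).div h3 hne
    exact h4.congr_deriv (by ring)

lemma Fc_bound (hb : Continuous b) (hbc : HasCompactSupport b) {d : ℝ} (hd : 0 < d) :
    ∃ C : ℝ, 0 ≤ C ∧ ∀ z : ℂ, d ≤ z.im → ‖Fc b z‖ ≤ C / ‖z‖ := by
  have hbi : Integrable b := hb.integrable_of_hasCompactSupport hbc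
  obtain ⟨R, hR⟩ := hbc.isCompact.isBounded.subset_closedBall 0
  have hR' : ∀ v, b v ≠ 0 → |v| ≤ max R 0 := by
    intro v hv
    have := hR (subset_tsupport _ hv)
    rw [Metric.mem_closedBall, dist_zero_right, Real.norm_eq_abs] at this
    exact this.trans (le_max_left _ _)
  set R0 := max R 0 with hR0
  have hR00 : 0 ≤ R0 := le_max_right _ _
  refine ⟨(∫ v, |b v|) * (1 + R0 / d), mul_nonneg (integral_nonneg fun v => abs_nonneg _)
    (by positivity), fun z hz => ?_⟩
  have hz0 : 0 < z.im := hd.trans_le hz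
  have hzn : 0 < ‖z‖ := by
    rw [norm_pos_iff]; intro h; rw [h] at hz0; simp at hz0
  have hpt : ∀ v : ℝ, ‖(b v : ℂ) / (z + v)‖ ≤ |b v| * ((1 + R0 / d) / ‖z‖) := by
    intro v
    rw [norm_div, Complex.norm_real, Real.norm_eq_abs]
    by_cases hv : b v = 0
    · simp [hv]
    rw [div_eq_mul_inv]
    refine mul_le_mul_of_nonneg_left ?_ (abs_nonneg _)
    have h1 : d ≤ ‖z + v‖ := hz.trans (im_le_norm v)
    have h2 : 0 < ‖z + v‖ := hd.trans_le h1
    rw [inv_eq_one_div, div_le_div_iff₀ h2 hzn, one_mul]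
    have h3 : ‖z‖ ≤ ‖z + v‖ + |v| := by
      have : z = (z + v) - v := by ring
      calc ‖z‖ = ‖(z + v) - v‖ := by rw [← this]
        _ ≤ ‖z + v‖ + ‖(v : ℂ)‖ := norm_sub_le _ _
        _ = _ := by rw [Complex.norm_real, Real.norm_eq_abs]
    have h4 : R0 ≤ R0 / d * ‖z + v‖ := by
      rw [div_mul_eq_mul_div, le_div_iff₀ hd]
      exact mul_le_mul_of_nonneg_left h1 hR00
    have := hR' v hv
    nlinarith
  calc ‖Fc b z‖ ≤ ∫ v, |b v| * ((1 + R0 / d) / ‖z‖) :=
        norm_integral_le_of_norm_le (hbi.abs.mul_const _) (Eventually.of_forall hpt)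
    _ = (∫ v, |b v|) * (1 + R0 / d) / ‖z‖ := by
        rw [integral_mul_const]; ring

/-- the line at height `d` -/
def ln (d u : ℝ) : ℂ := (u : ℂ) + (d : ℂ) * Complex.I

lemma ln_im (d u : ℝ) : (ln d u).im = d := by simp [ln]
lemma ln_re (d u : ℝ) : (ln d u).re = u := by simp [ln]

lemma ln_norm_sq (d u : ℝ) : ‖ln d u‖ ^ 2 = u ^ 2 + d ^ 2 := by
  rw [← Complex.normSq_eq_norm_sq, Complex.normSq_apply, ln_im, ln_re]; ring

lemma ln_cont (d : ℝ) : Continuous (ln d) := by unfold ln; fun_prop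

lemma Fl_cont (hb : Continuous b) (hbc : HasCompactSupport b) {d : ℝ} (hd : 0 < d) :
    Continuous fun u => Fc b (ln d u) := by
  rw [continuous_iff_continuousAt]
  intro u
  have h1 : ContinuousAt (Fc b) (ln d u) :=
    (Fc_diff hb hbc (by rw [ln_im]; exact hd)).continuousAt
  exact ContinuousAt.comp (g := Fc b) (f := ln d) h1 (ln_cont d).continuousAt

lemma Fl_int (hb : Continuous b) (hbc : HasCompactSupport b) {d : ℝ} (hd : 0 < d) :
    Integrable fun u => Fc b (ln d u) ^ 4 := by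
  obtain ⟨C, hC0, hC⟩ := Fc_bound hb hbc hd
  refine ((P_int hd).const_mul (C ^ 4 / d ^ 3)).mono' ((Fl_cont hb hbc hd).pow 4).aestronglyMeasurable
    (Eventually.of_forall fun u => ?_)
  have h1 := hC (ln d u) (by rw [ln_im])
  have h2 : 0 < ‖ln d u‖ ^ 2 := by rw [ln_norm_sq]; positivity
  have h3 := ln_norm_sq d u
  have hn : 0 < ‖ln d u‖ := by
    by_contra h
    have : ‖ln d u‖ = 0 := le_antisymm (not_lt.1 h) (norm_nonneg _)
    rw [this] at h2; norm_num at h2
  rw [norm_pow]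
  calc ‖Fc b (ln d u)‖ ^ 4 ≤ (C / ‖ln d u‖) ^ 4 := pow_le_pow_left₀ (norm_nonneg _) h1 4
    _ = C ^ 4 / (u ^ 2 + d ^ 2) ^ 2 := by rw [div_pow, ← h3]; ring
    _ ≤ C ^ 4 / d ^ 3 * P d u := by
        unfold P
        have hdp := den_pos hd u
        rw [div_mul_div_comm, div_le_div_iff₀ (by positivity) (by positivity)]
        have hC4 : 0 ≤ C ^ 4 := by positivity
        have : d ^ 2 ≤ u ^ 2 + d ^ 2 := by nlinarith [sq_nonneg u]
        have h5 : d ^ 3 * (u ^ 2 + d ^ 2) ≤ d * (u ^ 2 + d ^ 2) ^ 2 := by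
          have : d * (u ^ 2 + d ^ 2) ^ 2 - d ^ 3 * (u ^ 2 + d ^ 2) = d * (u ^ 2 + d ^ 2) * u ^ 2 := by
            ring
          nlinarith [mul_nonneg (mul_nonneg hd.le hdp.le) (sq_nonneg u)]
        nlinarith [mul_le_mul_of_nonneg_left h5 hC4]

/-- Riesz: the fourth power has integral zero. -/
theorem Fl_zero (hb : Continuous b) (hbc : HasCompactSupport b) {d : ℝ} (hd : 0 < d) :
    ∫ u, Fc b (ln d u) ^ 4 = 0 := by
  obtain ⟨C, hC0, hC⟩ := Fc_bound hb hbc hd
  have hfb : ∀ z : ℂ, d ≤ z.im → ∀ R : ℝ, 0 < R → R ≤ ‖z‖ → ‖Fc b z ^ 4‖ ≤ C ^ 4 / R ^ 4 := by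
    intro z hz R hR hRz
    rw [norm_pow]
    calc ‖Fc b z‖ ^ 4 ≤ (C / ‖z‖) ^ 4 := pow_le_pow_left₀ (norm_nonneg _) (hC z hz) 4
      _ ≤ (C / R) ^ 4 := pow_le_pow_left₀ (by positivity) (div_le_div_of_nonneg_left hC0 hR hRz) 4
      _ = _ := by rw [div_pow]
  have hbd : ∀ R : ℝ, d < R → ‖∫ x in (-R)..R, Fc b (ln d x) ^ 4‖ ≤ 4 * C ^ 4 / R ^ 3 := by
    intro R hR
    have hR0 : 0 < R := hd.trans hR
    have hrect := Complex.integral_boundary_rect_eq_zero_of_differentiableOn
      (fun z => Fc b z ^ 4) (⟨-R, d⟩ : ℂ) (⟨R, R⟩ : ℂ) (by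
        intro z hz
        rw [Complex.mem_reProdIm] at hz
        simp only at hz
        rw [uIcc_of_le hR.le] at hz
        exact ((Fc_diff hb hbc (hd.trans_le hz.2.1)).pow 4).differentiableWithinAt)
    simp only at hrect
    have e1 : ‖∫ x : ℝ in (-R)..R, Fc b ((x : ℂ) + (R : ℂ) * Complex.I) ^ 4‖ ≤
        C ^ 4 / R ^ 4 * |R - -R| := by
      refine intervalIntegral.norm_integral_le_of_norm_le_const fun x _ => ?_
      refine hfb _ (by simp [hR.le]) R hR0 ?_
      have := Complex.abs_im_le_norm ((x : ℂ) + (R : ℂ) * Complex.I)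
      simp only [Complex.add_im, Complex.ofReal_im, Complex.mul_im, Complex.I_im, Complex.I_re,
        Complex.ofReal_re] at this
      simp only [mul_one, mul_zero, zero_add, add_zero] at this
      exact (le_abs_self R).trans this
    have e2 : ∀ s : ℝ, |s| = R → ‖∫ y : ℝ in d..R, Fc b ((s : ℂ) + (y : ℂ) * Complex.I) ^ 4‖ ≤
        C ^ 4 / R ^ 4 * |R - d| := by
      intro s hs
      refine intervalIntegral.norm_integral_le_of_norm_le_const fun y hy => ?_
      rw [uIoc_of_le hR.le] at hy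
      refine hfb _ (by simp [hy.1.le]) R hR0 ?_
      have := Complex.abs_re_le_norm ((s : ℂ) + (y : ℂ) * Complex.I)
      simp only [Complex.add_re, Complex.ofReal_re, Complex.mul_re, Complex.I_im, Complex.I_re,
        Complex.ofReal_im] at this
      simp only [mul_one, mul_zero, sub_self, add_zero] at this
      rwa [hs] at this
    have e3 := e2 R (abs_of_pos hR0)
    have e4 := e2 (-R) (by rw [abs_neg, abs_of_pos hR0])
    have hx : ∫ x in (-R)..R, Fc b (ln d x) ^ 4 =
        (∫ x : ℝ in (-R)..R, Fc b ((x : ℂ) + (R : ℂ) * Complex.I) ^ 4) -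
        Complex.I • (∫ y : ℝ in d..R, Fc b ((R : ℂ) + (y : ℂ) * Complex.I) ^ 4) +
        Complex.I • (∫ y : ℝ in d..R, Fc b (((-R : ℝ) : ℂ) + (y : ℂ) * Complex.I) ^ 4) := by
      unfold ln
      linear_combination hrect
    rw [hx]
    have hR4 : C ^ 4 / R ^ 4 * |R - -R| = 2 * C ^ 4 / R ^ 3 := by
      rw [show R - -R = 2 * R by ring, abs_of_pos (by positivity)]
      field_simp
    have hR5 : C ^ 4 / R ^ 4 * |R - d| ≤ C ^ 4 / R ^ 3 := by
      rw [abs_of_pos (by linarith)]
      calc C ^ 4 / R ^ 4 * (R - d) ≤ C ^ 4 / R ^ 4 * R :=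
            mul_le_mul_of_nonneg_left (by linarith) (by positivity)
        _ = _ := by field_simp
    have n1 : ∀ x y z : ℂ, ‖x - Complex.I • y + Complex.I • z‖ ≤ ‖x‖ + ‖y‖ + ‖z‖ := by
      intro x y z
      have a1 := norm_add_le (x - Complex.I • y) (Complex.I • z)
      have a2 := norm_sub_le x (Complex.I • y)
      rw [norm_smul, Complex.norm_I, one_mul] at a1 a2
      linarith
    have hsum : 4 * C ^ 4 / R ^ 3 = 2 * C ^ 4 / R ^ 3 + C ^ 4 / R ^ 3 + C ^ 4 / R ^ 3 := by ring
    rw [hsum]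
    refine (n1 _ _ _).trans ?_
    linarith
  have hlim : Tendsto (fun R : ℝ => ∫ x in (-R)..R, Fc b (ln d x) ^ 4) atTop
      (𝓝 (∫ u, Fc b (ln d u) ^ 4)) :=
    intervalIntegral_tendsto_integral (Fl_int hb hbc hd) tendsto_neg_atTop_atBot tendsto_id
  have hlim0 : Tendsto (fun R : ℝ => ∫ x in (-R)..R, Fc b (ln d x) ^ 4) atTop (𝓝 0) := by
    rw [tendsto_zero_iff_norm_tendsto_zero]
    have hz : Tendsto (fun R : ℝ => 4 * C ^ 4 / R ^ 3) atTop (𝓝 0) :=
      tendsto_const_nhds.div_atTop (tendsto_pow_atTop (by norm_num))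
    refine squeeze_zero' (Eventually.of_forall fun R => norm_nonneg _) ?_ hz
    filter_upwards [eventually_gt_atTop d] with R hR
    exact hbd R hR
  exact tendsto_nhds_unique hlim hlim0

end

end SH17
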