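import Mathlib
import Pool.Agent.Lib.MP_5ef378_an.Perm_31

/-!
All bipartitions, and the norms of the three-variable functions.
-/

set_option autoImplicit false

namespace Pool.Agent.Lib.MP_5ef378_an.SH31

open MeasureTheory Filter Topology Real

/-- the constant -/
noncomputable def C0 : ℝ := 2 * √6 * π + 2 * π

theorem C0_ge : 6 * π ≤ C0 := by
  have h1 : (2 : ℝ) ≤ √6 := by
    rw [show (2 : ℝ) = √(2 ^ 2) by rw [Real.sqrt_sq (by norm_num)]]
    exact Real.sqrt_le_sqrt (by norm_num)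
  have := Real.pi_pos
  unfold C0
  nlinarith

/-- the statement of the canonical 1|3 case -/
def Can13 : Prop := ∀ (e N : ℝ), 0 < e → e < N → ∀ (F0 F1 F2 F3 : R4 → ℝ),
  Tst 0 F0 → Tst 1 F1 → Tst 2 F2 → Tst 3 F3 → Splits {3} F0 → Splits {3} F1 → Splits {3} F2 →
    |∫ x : R4, trK e N ((x 0 + x 1) + (x 2 + x 3)) * (F0 x * F1 x * F2 x * F3 x)| ≤
      C0 * √(√(n4 0 F0 * n4 1 F1 * n4 2 F2 * n4 3 F3))

/-- all bipartitions -/
theorem all_splits (H : Can13) {e N : ℝ} (he : 0 < e) (hN : e < N) {F : Fin 4 → R4 → ℝ}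
    (hT : ∀ i, Tst i (F i)) {S : Set (Fin 4)} (h1 : S.Nonempty) (h2 : Sᶜ.Nonempty)
    (hS : ∀ i, Splits S (F i)) :
    |∫ x : R4, trK e N (∑ i, x i) * ∏ i, F i x| ≤ C0 * √(√(∏ i, n4 i (F i))) := by
  obtain ⟨σ, hσ⟩ := exists_perm h1 h2
  rw [← rel_form σ F (trK e N)]
  have hn : ∏ i, n4 i (F i) = ∏ i, n4 i (rel σ F i) := by
    rw [← Equiv.prod_comp σ]
    refine Finset.prod_congr rfl fun i _ => ?_
    rw [rel_n4]
  rw [hn]
  have gT : ∀ i, Tst i (rel σ F i) := rel_tst σ hT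
  have gS : ∀ i, Splits {j | σ j ∈ S} (rel σ F i) := fun i => rel_splits σ (hS _)
  have e1 : ∀ x : R4, trK e N (∑ i, x i) * ∏ i, rel σ F i x =
      trK e N ((x 0 + x 1) + (x 2 + x 3)) *
        (rel σ F 0 x * rel σ F 1 x * rel σ F 2 x * rel σ F 3 x) := by
    intro x
    rw [Fin.prod_univ_four, Fin.sum_univ_four]
    congr 2
    ring
  simp only [e1]
  rw [Fin.prod_univ_four]
  rcases hσ with hσ | hσ | hσ
  · rw [hσ] at gS
    refine (can22 he hN (gT 0) (gT 1) (gT 2) (gT 3) (gS 0) (gS 1) (gS 2) (gS 3)).trans ?_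
    exact mul_le_mul_of_nonneg_right C0_ge (Real.sqrt_nonneg _)
  · rw [hσ] at gS
    exact H e N he hN _ _ _ _ (gT 0) (gT 1) (gT 2) (gT 3) (gS 0) (gS 1) (gS 2)
  · rw [hσ] at gS
    have gS' : ∀ i, Splits {3} (rel σ F i) := fun i => by
      have := splits_compl (gS i)
      rwa [compl_compl] at this
    exact H e N he hN _ _ _ _ (gT 0) (gT 1) (gT 2) (gT 3) (gS' 0) (gS' 1) (gS' 2)

/-- three coordinates as a pair and a number -/
def e3 : (ℝ × ℝ) × ℝ ≃ᵐ (Fin 3 → ℝ) where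
  toFun z := ![z.1.1, z.1.2, z.2]
  invFun x := ((x 0, x 1), x 2)
  left_inv z := by simp
  right_inv x := by
    ext i
    fin_cases i <;> rfl
  measurable_toFun := by
    refine measurable_pi_iff.2 fun i => ?_
    fin_cases i
    · exact measurable_fst.fst
    · exact measurable_fst.snd
    · exact measurable_snd
  measurable_invFun := by
    refine Measurable.prodMk (Measurable.prodMk ?_ ?_) ?_ <;>
    exact measurable_pi_apply _

theorem e3_mp : MeasurePreserving (e3 : (ℝ × ℝ) × ℝ → (Fin 3 → ℝ)) volume volume := by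
  refine ⟨e3.measurable, ?_⟩
  symm
  refine Measure.pi_eq fun s hs => ?_
  rw [Measure.map_apply e3.measurable (MeasurableSet.univ_pi hs)]
  have h : (e3 : (ℝ × ℝ) × ℝ → (Fin 3 → ℝ)) ⁻¹' (Set.univ.pi s) =
      (s 0 ×ˢ s 1) ×ˢ s 2 := by
    ext z
    simp only [Set.mem_preimage, Set.mem_univ_pi, Set.mem_prod]
    constructor
    · intro h
      exact ⟨⟨h 0, h 1⟩, h 2⟩
    · rintro ⟨⟨h0, h1⟩, h2⟩ i
      fin_cases i
      · exact h0
      · exact h1
      · exact h2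
  rw [h, Measure.volume_eq_prod, Measure.prod_prod, Measure.volume_eq_prod, Measure.prod_prod,
    Fin.prod_univ_three]

theorem int3 (G : (Fin 3 → ℝ) → ℝ) :
    ∫ x, G x = ∫ z : (ℝ × ℝ) × ℝ, G ![z.1.1, z.1.2, z.2] := by
  rw [← e3_mp.integral_comp e3.measurableEmbedding]
  rfl

/-- integrate out the last variable -/
theorem last (G : (Fin 3 → ℝ) → ℝ) :
    ∫ x : R4, u1 (x 3) * G ![x 0, x 1, x 2] = ∫ y, G y := by
  rw [int4, int3]
  have h1 : MeasurePreserving (MeasurableEquiv.prodAssoc : ((ℝ × ℝ) × ℝ) × ℝ ≃ᵐ (ℝ × ℝ) × (ℝ × ℝ))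
      (((volume.prod volume).prod volume).prod volume) ((volume.prod volume).prod
        (volume.prod volume)) := measurePreserving_prodAssoc _ _ _
  have h2 := h1.integral_comp (MeasurableEquiv.measurableEmbedding _)
    (fun z : (ℝ × ℝ) × (ℝ × ℝ) => u1 z.2.2 * G ![z.1.1, z.1.2, z.2.1])
  change ∫ z : (ℝ × ℝ) × (ℝ × ℝ), u1 z.2.2 * G ![z.1.1, z.1.2, z.2.1] = _
  refine h2.symm.trans ?_
  change ∫ z : ((ℝ × ℝ) × ℝ) × ℝ, u1 z.2 * G ![z.1.1.1, z.1.1.2, z.1.2] = _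
  have h3 := integral_prod_mul (μ := (volume : Measure ((ℝ × ℝ) × ℝ))) (ν := (volume : Measure ℝ))
    (fun z => G ![z.1.1, z.1.2, z.2]) u1
  rw [u1_int, mul_one] at h3
  rw [← h3]
  refine integral_congr_ae (Eventually.of_forall fun z => ?_)
  simp only
  ring

/-- the four functions of the form -/
def fam (f g h k : (Fin 3 → ℝ) → ℝ) : Fin 4 → R4 → ℝ :=
  ![fun x => g ![x 1, x 2, x 3], fun x => h ![x 2, x 3, x 0], fun x => k ![x 3, x 0, x 1],
    fun x => f ![x 0, x 1, x 2]]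

theorem n4_f (f : (Fin 3 → ℝ) → ℝ) : n4 3 (fun x => f ![x 0, x 1, x 2]) = ∫ y, f y ^ 4 :=
  last (fun y => f y ^ 4)

theorem n4_g (g : (Fin 3 → ℝ) → ℝ) : n4 0 (fun x => g ![x 1, x 2, x 3]) = ∫ y, g y ^ 4 := by
  unfold n4
  rw [intperm (Equiv.addRight 3), ← last (fun y => g y ^ 4)]
  rfl

theorem n4_h (h : (Fin 3 → ℝ) → ℝ) : n4 1 (fun x => h ![x 2, x 3, x 0]) = ∫ y, h y ^ 4 := by
  unfold n4
  rw [intperm (Equiv.addRight 2), ← last (fun y => h y ^ 4)]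
  rfl

theorem n4_k (k : (Fin 3 → ℝ) → ℝ) : n4 2 (fun x => k ![x 3, x 0, x 1]) = ∫ y, k y ^ 4 := by
  unfold n4
  rw [intperm (Equiv.addRight 1), ← last (fun y => k y ^ 4)]
  rfl

/-- the `L^4` norm -/
noncomputable def N4 (f : (Fin 3 → ℝ) → ℝ) : ℝ := (eLpNorm f 4 volume).toReal

theorem N4_nonneg (f : (Fin 3 → ℝ) → ℝ) : 0 ≤ N4 f := ENNReal.toReal_nonneg

theorem N4_pow {f : (Fin 3 → ℝ) → ℝ} (hf : Continuous f) (hf' : HasCompactSupport f) :
    N4 f ^ 4 = ∫ y, f y ^ 4 := by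
  have hm : MemLp f 4 volume := hf.memLp_of_hasCompactSupport hf'
  unfold N4
  rw [hm.eLpNorm_eq_integral_rpow_norm (by norm_num) (by norm_num)]
  have e1 : (4 : ENNReal).toReal = 4 := by norm_num
  rw [e1]
  have e2 : ∫ a, ‖f a‖ ^ (4 : ℝ) = ∫ y, f y ^ 4 := by
    refine integral_congr_ae (Eventually.of_forall fun x => ?_)
    simp only
    rw [show (4 : ℝ) = ((4 : ℕ) : ℝ) by norm_num, Real.rpow_natCast, Real.norm_eq_abs]
    have : |f x| ^ 4 = (|f x| ^ 2) ^ 2 := by ring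
    rw [this, sq_abs]
    ring
  rw [e2]
  have h0 : 0 ≤ ∫ y, f y ^ 4 := i4_nonneg _ _
  rw [ENNReal.toReal_ofReal (Real.rpow_nonneg h0 _), ← Real.rpow_natCast, ← Real.rpow_mul h0]
  norm_num

theorem tst_of {f : (Fin 3 → ℝ) → ℝ} (hf : Continuous f) (hf' : HasCompactSupport f) (i : Fin 4)
    (τ : Fin 3 → Fin 4) (h1 : ∀ l, τ l ≠ i) (h2 : ∀ j, j ≠ i → ∃ l, τ l = j) :
    Tst i (fun x => f (fun l => x (τ l))) := by
  refine ⟨by fun_prop, fun x y hxy => ?_, ?_⟩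
  · congr 1
    ext l
    exact hxy _ (h1 l)
  · obtain ⟨c, hc⟩ := hf'.isCompact.isBounded.subset_closedBall (0 : Fin 3 → ℝ)
    refine ⟨c, fun x hx j hj => ?_⟩
    have h3 : (fun l => x (τ l)) ∈ Metric.closedBall (0 : Fin 3 → ℝ) c :=
      hc (subset_tsupport _ hx)
    rw [mem_closedBall_zero_iff] at h3
    obtain ⟨l, rfl⟩ := h2 j hj
    exact (norm_le_pi_norm (fun l => x (τ l)) l).trans h3

theorem vec3 (x : R4) (a b c : Fin 4) : (![x a, x b, x c] : Fin 3 → ℝ) =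
    fun l => x ((![a, b, c] : Fin 3 → Fin 4) l) := by
  ext l
  fin_cases l <;> rfl

theorem fam_tst {f g h k : (Fin 3 → ℝ) → ℝ} (hf : Continuous f) (hf' : HasCompactSupport f)
    (hg : Continuous g) (hg' : HasCompactSupport g) (hh : Continuous h)
    (hh' : HasCompactSupport h) (hk : Continuous k) (hk' : HasCompactSupport k) (i : Fin 4) :
    Tst i (fam f g h k i) := by
  fin_cases i
  · change Tst 0 (fun x => g ![x 1, x 2, x 3])
    simp only [vec3]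
    exact tst_of hg hg' _ _ (by decide) (by decide)
  · change Tst 1 (fun x => h ![x 2, x 3, x 0])
    simp only [vec3]
    exact tst_of hh hh' _ _ (by decide) (by decide)
  · change Tst 2 (fun x => k ![x 3, x 0, x 1])
    simp only [vec3]
    exact tst_of hk hk' _ _ (by decide) (by decide)
  · change Tst 3 (fun x => f ![x 0, x 1, x 2])
    simp only [vec3]
    exact tst_of hf hf' _ _ (by decide) (by decide)

theorem sqrt_prod {a b c d : ℝ} (ha : 0 ≤ a) (hb : 0 ≤ b) (hc : 0 ≤ c) (hd : 0 ≤ d) :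
    √(√(b ^ 4 * c ^ 4 * d ^ 4 * a ^ 4)) = a * b * c * d := by
  have e : b ^ 4 * c ^ 4 * d ^ 4 * a ^ 4 = ((a * b * c * d) ^ 2) ^ 2 := by ring
  rw [e, Real.sqrt_sq (by positivity), Real.sqrt_sq (by positivity)]

/-- the truncated form -/
noncomputable def form (f g h k : (Fin 3 → ℝ) → ℝ) (e N : ℝ) : ℝ :=
  ∫ x : Fin 4 → ℝ, Set.indicator {y : Fin 4 → ℝ | e < |∑ i, y i| ∧ |∑ i, y i| < N}
    (fun y : Fin 4 → ℝ => f ![y 0, y 1, y 2] * g ![y 1, y 2, y 3] * h ![y 2, y 3, y 0] *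
      k ![y 3, y 0, y 1] / ∑ i, y i) x

theorem form_eq (f g h k : (Fin 3 → ℝ) → ℝ) (e N : ℝ) :
    form f g h k e N = ∫ x : R4, trK e N (∑ i, x i) * ∏ i, fam f g h k i x := by
  unfold form
  refine integral_congr_ae (Eventually.of_forall fun x => ?_)
  simp only [Set.indicator_apply, Set.mem_ofPred_eq, trK]
  rw [Fin.prod_univ_four]
  split_ifs
  · change _ = 1 / (∑ i, x i) * (g ![x 1, x 2, x 3] * h ![x 2, x 3, x 0] * k ![x 3, x 0, x 1] *
      f ![x 0, x 1, x 2])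
    ring
  · simp

/-- the estimate, all bipartitions -/
theorem main (H : Can13) {f g h k : (Fin 3 → ℝ) → ℝ} (hf : Continuous f)
    (hf' : HasCompactSupport f) (hg : Continuous g) (hg' : HasCompactSupport g)
    (hh : Continuous h) (hh' : HasCompactSupport h) (hk : Continuous k)
    (hk' : HasCompactSupport k) {S : Set (Fin 4)} (h1 : S.Nonempty) (h2 : Sᶜ.Nonempty)
    (sf : Splits S (fun x => f ![x 0, x 1, x 2])) (sg : Splits S (fun x => g ![x 1, x 2, x 3]))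
    (sh : Splits S (fun x => h ![x 2, x 3, x 0])) (sk : Splits S (fun x => k ![x 3, x 0, x 1]))
    {e N : ℝ} (he : 0 < e) (hN : e < N) :
    |form f g h k e N| ≤ C0 * N4 f * N4 g * N4 h * N4 k := by
  rw [form_eq]
  have hS : ∀ i, Splits S (fam f g h k i) := by
    intro i
    fin_cases i
    · exact sg
    · exact sh
    · exact sk
    · exact sf
  have h3 := all_splits H he hN (fam_tst hf hf' hg hg' hh hh' hk hk') h1 h2 hS
  refine h3.trans (le_of_eq ?_)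
  have e0 : n4 0 (fam f g h k 0) = N4 g ^ 4 := by rw [N4_pow hg hg', ← n4_g]; rfl
  have e1 : n4 1 (fam f g h k 1) = N4 h ^ 4 := by rw [N4_pow hh hh', ← n4_h]; rfl
  have e2 : n4 2 (fam f g h k 2) = N4 k ^ 4 := by rw [N4_pow hk hk', ← n4_k]; rfl
  have e3 : n4 3 (fam f g h k 3) = N4 f ^ 4 := by rw [N4_pow hf hf', ← n4_f]; rfl
  rw [Fin.prod_univ_four, e0, e1, e2, e3, sqrt_prod (N4_nonneg f) (N4_nonneg g) (N4_nonneg h)
    (N4_nonneg k)]
  ring

/-- the principal value -/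
theorem pv {f g h k : (Fin 3 → ℝ) → ℝ} {c : ℝ}
    (hc : ∀ e N : ℝ, 0 < e → e < N → |form f g h k e N| ≤ c) {L : ℝ}
    (hL : Tendsto (fun p : ℝ × ℝ => form f g h k p.1 p.2)
      ((nhdsWithin (0 : ℝ) (Set.Ioi 0)) ×ˢ atTop) (nhds L)) : |L| ≤ c := by
  have h1 : ∀ᶠ p : ℝ × ℝ in (nhdsWithin (0 : ℝ) (Set.Ioi 0)) ×ˢ atTop, 0 < p.1 ∧ p.1 < p.2 := by
    have a1 : ∀ᶠ e in nhdsWithin (0 : ℝ) (Set.Ioi 0), 0 < e ∧ e < 1 := by
      filter_upwards [Ioo_mem_nhdsGT (show (0 : ℝ) < 1 by norm_num)] with e he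
      exact he
    have a2 : ∀ᶠ N : ℝ in atTop, 1 < N := eventually_gt_atTop 1
    filter_upwards [a1.prod_mk a2] with p hp
    exact ⟨hp.1.1, hp.1.2.trans hp.2⟩
  have h2 := hL.abs
  refine le_of_tendsto h2 ?_
  filter_upwards [h1] with p hp
  exact hc _ _ hp.1 hp.2

end Pool.Agent.Lib.MP_5ef378_an.SH31
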